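import Pool.Agent.Helper98.CP.Asm4
import Pool.Agent.Helper39.CJ.Good

set_option autoImplicit false

namespace Pool.Agent.CP

open Stage Pool.Agent.CQ

section

variable {k n : ℕ}

/-- a common exponent for finitely many elements of `ℤ[1/s]` -/
theorem exists_common_exp {ι : Type*} [Fintype ι] (s : ℕ) (q : ι → ℚ)
    (h : ∀ i, LIN.InR s (q i)) : ∃ j : ℕ, ∀ i, ∃ z : ℤ, (s : ℚ) ^ j * q i = z := by
  classical
  choose f z hz using h
  refine ⟨∑ i, f i, fun i => ⟨(s : ℤ) ^ (∑ j ∈ Finset.univ.erase i, f j) * z i, ?_⟩⟩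
  have h1 : ∑ j, f j = (∑ j ∈ Finset.univ.erase i, f j) + f i :=
    (Finset.sum_erase_add _ _ (Finset.mem_univ i)).symm
  rw [h1, pow_add, mul_assoc, hz i]
  push_cast
  rfl

/-- the representation of the free group -/
noncomputable def repA (π : FreeGroup (Fin k) →* GL (Fin n) ℚ) :
    FreeGroup (Fin k) →* ((Fin n → ℚ) →ₗ[ℚ] (Fin n → ℚ)) :=
  (Matrix.toLinAlgEquiv' : Matrix (Fin n) (Fin n) ℚ ≃ₐ[ℚ] _).toRingEquiv.toMonoidHom.comp
    ((Units.coeHom (Matrix (Fin n) (Fin n) ℚ)).comp π)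

theorem repA_eq (π : FreeGroup (Fin k) →* GL (Fin n) ℚ) (g : FreeGroup (Fin k)) :
    repA π g = Matrix.toLin' (π g : Matrix (Fin n) (Fin n) ℚ) := rfl

theorem repA_apply (π : FreeGroup (Fin k) →* GL (Fin n) ℚ) (g : FreeGroup (Fin k))
    (v : Fin n → ℚ) : repA π g v = (π g : Matrix (Fin n) (Fin n) ℚ).mulVec v := rfl

theorem exists_base {G1 N1 : Subgroup (GL (Fin n) ℚ)} {D : NP.Lat n} (hfg : G1.FG)
    (hN1 : N1 ≤ G1) (hcomm : ∀ a ∈ G1, ∀ b ∈ G1, a * b * a⁻¹ * b⁻¹ ∈ N1)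
    (hexp : ∀ x : GL (Fin n) ℚ, x ∈ N1 ↔ ∃ X ∈ D.L, (x : Matrix (Fin n) (Fin n) ℚ) = NP.E D.c X)
    (hexp' : ∀ X ∈ D.L, ∃ x ∈ N1, (x : Matrix (Fin n) (Fin n) ℚ) = NP.E D.c X)
    (hconj : ∀ g ∈ G1, ∀ X ∈ D.L, (g : Matrix (Fin n) (Fin n) ℚ) * X *
        ((g⁻¹ : GL (Fin n) ℚ) : Matrix (Fin n) (Fin n) ℚ) ∈ D.L)
    (hflag : ∀ g ∈ G1, ∀ i, ∀ v ∈ D.V i, (g : Matrix (Fin n) (Fin n) ℚ).mulVec v ∈ D.V i) :
    ∃ (k : ℕ) (B : Base (FreeGroup (Fin k)) (Fin n → ℚ)),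
      (REPred (fun A : Matrix (Fin n) (Fin n) ℚ => Matrix.toLin' A ∈ B.L)) ∧
      (∃ s : ℕ, 0 < s ∧ ∀ l ∈ B.L, ∃ j : ℕ, ∀ a b, ∃ z : ℤ,
        (s : ℚ) ^ j * LinearMap.toMatrix' l a b = z) ∧
      (∀ x y : Fin n → ℚ, (∃ g, B.ρ g x = y) ↔
        ∃ g ∈ G1, (g : Matrix (Fin n) (Fin n) ℚ).mulVec x = y) := by
  obtain ⟨T, hT⟩ := hfg
  let e := T.equivFin.symm
  let π : FreeGroup (Fin T.card) →* GL (Fin n) ℚ := FreeGroup.lift (fun i => (e i : GL (Fin n) ℚ))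
  have hπ : π.range = G1 := by
    rw [FreeGroup.range_lift_eq_closure, ← hT]
    congr 1
    ext x
    constructor
    · rintro ⟨i, rfl⟩
      exact (e i).2
    · intro hx
      exact ⟨T.equivFin ⟨x, hx⟩, by simp [e]⟩
  have hπm : ∀ g, π g ∈ G1 := fun g => hπ ▸ ⟨g, rfl⟩
  have hL : ∀ A : Matrix (Fin n) (Fin n) ℚ,
      Matrix.toLin' A ∈ D.L.map (Matrix.toLin' : Matrix (Fin n) (Fin n) ℚ ≃ₗ[ℚ] _).toAddMonoidHom ↔
        A ∈ D.L := by
    intro A
    constructor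
    · rintro ⟨A', hA', h⟩
      have h' : A' = A := Matrix.toLin'.injective h
      rwa [← h']
    · intro hA
      exact ⟨A, hA, rfl⟩
  let B : Base (FreeGroup (Fin T.card)) (Fin n → ℚ) :=
    { ρ := repA π
      N := N1.comap π
      L := D.L.map (Matrix.toLin' : Matrix (Fin n) (Fin n) ℚ ≃ₗ[ℚ] _).toAddMonoidHom
      c := D.c
      W := D.V
      comm := by
        intro a b
        rw [Subgroup.mem_comap]
        simpa using hcomm (π a) (hπm a) (π b) (hπm b)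
      Linv := by
        rintro g l ⟨X, hX, rfl⟩
        have h1 := hconj (π g) (hπm g) X hX
        rw [← hL] at h1
        have h2 : Matrix.toLin' ((π g : Matrix (Fin n) (Fin n) ℚ) * X *
            (((π g)⁻¹ : GL (Fin n) ℚ) : Matrix (Fin n) (Fin n) ℚ)) =
            repA π g ∘ₗ (Matrix.toLin' X) ∘ₗ repA π g⁻¹ := by
          rw [Matrix.toLin'_mul, Matrix.toLin'_mul, repA_eq, repA_eq, map_inv,
            LinearMap.comp_assoc]
        rw [h2] at h1
        exact h1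
      W0 := D.hV0
      Wc := D.hVc
      anti := D.hVanti
      inv := by
        intro g i v hv
        rw [repA_apply]
        exact hflag (π g) (hπm g) i v hv
      LW := by
        rintro l ⟨X, hX, rfl⟩ i v hv
        exact D.hVL X hX i v hv
      expN := by
        intro g
        rw [Subgroup.mem_comap, hexp]
        constructor
        · rintro ⟨X, hX, h⟩
          refine ⟨Matrix.toLin' X, (hL X).2 hX, ?_⟩
          rw [repA_eq, h, EE_toLin']
        · rintro ⟨l, ⟨X, hX, rfl⟩, h⟩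
          refine ⟨X, hX, ?_⟩
          have h' : Matrix.toLin' (π g : Matrix (Fin n) (Fin n) ℚ) =
              Matrix.toLin' (NP.E D.c X) := by
            rw [← EE_toLin']; exact h
          exact Matrix.toLin'.injective h'
      Nexp := by
        rintro l ⟨X, hX, rfl⟩
        obtain ⟨x, hx, h⟩ := hexp' X hX
        have hx' : x ∈ π.range := hπ ▸ hN1 hx
        obtain ⟨g, rfl⟩ := hx'
        refine ⟨g, hx, ?_⟩
        rw [repA_eq, h]
        exact (EE_toLin' D.c X).symm }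
  refine ⟨T.card, B, ?_, ?_, ?_⟩
  · exact D.re.of_eq (fun A => (hL A).symm)
  · refine ⟨D.s, D.hs, ?_⟩
    rintro l ⟨X, hX, rfl⟩
    obtain ⟨j, hj⟩ := exists_common_exp D.s (fun p : Fin n × Fin n => X p.1 p.2)
      (fun p => D.den X hX p.1 p.2)
    refine ⟨j, fun a b => ?_⟩
    have h1 : LinearMap.toMatrix' ((Matrix.toLin' :
        Matrix (Fin n) (Fin n) ℚ ≃ₗ[ℚ] _).toAddMonoidHom X) = X :=
      LinearMap.toMatrix'_toLin' X
    rw [h1]
    exact hj (a, b)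
  · intro x y
    constructor
    · rintro ⟨g, hg⟩
      exact ⟨π g, hπm g, hg⟩
    · rintro ⟨g, hg, h⟩
      rw [← hπ] at hg
      obtain ⟨w, rfl⟩ := hg
      exact ⟨w, h⟩

/-- THEOREM A: the orbit problem for f.g. virtually unipotent-by-abelian subgroups of `GL n ℚ` -/
theorem theoremA (G : Subgroup (GL (Fin n) ℚ)) (hG : G.FG) (h : VirtUnipAb G) :
    ComputablePred (fun p : (Fin n → ℚ) × (Fin n → ℚ) =>
      ∃ g ∈ G, g.1.mulVec p.1 = p.2) := by
  classical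
  obtain ⟨G1, N1, D, hG1, hrel, hfg, hN1, hcomm, _, hexp, hexp', hconj, hflag, _⟩ :=
    NP.lattice_theorem G hG h
  obtain ⟨k, B, hL, hden, horb⟩ := exists_base hfg hN1 hcomm hexp hexp' hconj hflag
  have h1 := B.orbit_computable hL hden
  have h2 : ComputablePred (fun p : (Fin n → ℚ) × (Fin n → ℚ) =>
      ∃ g ∈ G1, g.1.mulVec p.1 = p.2) := h1.of_eq (fun p => horb _ _)
  have hfin : (G1.subgroupOf G).FiniteIndex := ⟨hrel⟩
  let Q := G ⧸ G1.subgroupOf G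
  have : Fintype Q := Fintype.ofFinite Q
  let r : Q → GL (Fin n) ℚ := fun q => (q.out : G)
  have hr : ∀ q, r q ∈ G := fun q => (q.out : G).2
  have key : ∀ x y : Fin n → ℚ, (∃ g ∈ G, g.1.mulVec x = y) ↔
      ∃ q : Q, ∃ g ∈ G1, g.1.mulVec x = ((r q)⁻¹ : GL (Fin n) ℚ).1.mulVec y := by
    intro x y
    constructor
    · rintro ⟨g, hg, rfl⟩
      refine ⟨((⟨g, hg⟩ : G) : Q), (r ((⟨g, hg⟩ : G) : Q))⁻¹ * g, ?_, ?_⟩
      · have h3 : ((((⟨g, hg⟩ : G) : Q).out : G) : Q) = ((⟨g, hg⟩ : G) : Q) :=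
          Quotient.out_eq' _
        rw [QuotientGroup.eq] at h3
        exact h3
      · rw [Units.val_mul, Matrix.mulVec_mulVec]
    · rintro ⟨q, g, hg, h3⟩
      refine ⟨r q * g, G.mul_mem (hr q) (hG1 hg), ?_⟩
      rw [Units.val_mul, ← Matrix.mulVec_mulVec, h3, Matrix.mulVec_mulVec, ← Units.val_mul,
        mul_inv_cancel, Units.val_one, Matrix.one_mulVec]
  have hc : ∀ q : Q, Computable (fun p : (Fin n → ℚ) × (Fin n → ℚ) =>
      (p.1, ((r q)⁻¹ : GL (Fin n) ℚ).1.mulVec p.2)) := fun q =>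
    Computable.fst.pair (c_mulVec (Computable.const _) Computable.snd)
  refine computable_of_re ?_ ?_
  · have h3 : REPred (fun p : (Fin n → ℚ) × (Fin n → ℚ) =>
        ∃ q : Q, ∃ g ∈ G1, g.1.mulVec p.1 = ((r q)⁻¹ : GL (Fin n) ℚ).1.mulVec p.2) :=
      re_exists_fintype (fun q => by
        have h4 := re_comp h2.to_re (hc q)
        exact h4)
    exact h3.of_eq (fun p => (key _ _).symm)
  · have h3 : REPred (fun p : (Fin n → ℚ) × (Fin n → ℚ) =>
        ∀ q : Q, ¬ ∃ g ∈ G1, g.1.mulVec p.1 = ((r q)⁻¹ : GL (Fin n) ℚ).1.mulVec p.2) :=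
      re_forall_fintype (fun q => by
        have h4 := re_comp h2.not.to_re (hc q)
        exact h4)
    refine h3.of_eq (fun p => ?_)
    rw [key, not_exists]

end

end Pool.Agent.CP
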