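import Pool.Agent.Helper98.CP.Cmp
import Pool.Agent.Helper55.CP.OR4
import Pool.Agent.Helper54.CP.OR9b
import Pool.Agent.Helper54.CP.OA1
import Pool.Agent.Helper66.CP.OR3

set_option autoImplicit false

namespace Pool.Agent.CP

open Stage Pool.Agent.CQ

/-! ### r.e. predicates built from words -/

section

variable {k n : ℕ} (S : Stage (FreeGroup (Fin k)) (Fin n → ℚ))
variable {α : Type*} [Primcodable α]

theorem re_C {x : α → Fin n → ℚ} {w : α → Wd k} (hx : Computable x) (hw : Computable w) :
    REPred (fun a => gw (w a) ∈ S.C (x a)) := by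
  have h := re_comp (cp_C S).to_re (hx.pair hw)
  exact h

theorem re_C' {x : α → Fin n → ℚ} {w : α → Wd k} (hx : Computable x) (hw : Computable w) :
    REPred (fun a => gw (w a) ∈ S.C' (x a)) := by
  have h := re_comp (cp_C' S).to_re (hx.pair hw)
  exact h

theorem re_C_list {x : α → Fin n → ℚ} {l : α → List (Wd k)} (hx : Computable x)
    (hl : Computable l) : REPred (fun a => ∀ w ∈ l a, gw w ∈ S.C (x a)) :=
  re_forall_list (R := fun a w => gw w ∈ S.C (x a))
    (re_C S (hx.comp Computable.fst) Computable.snd) hl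

theorem re_C'_list {x : α → Fin n → ℚ} {l : α → List (Wd k)} (hx : Computable x)
    (hl : Computable l) : REPred (fun a => ∀ w ∈ l a, gw w ∈ S.C' (x a)) :=
  re_forall_list (R := fun a w => gw w ∈ S.C' (x a))
    (re_C' S (hx.comp Computable.fst) Computable.snd) hl

theorem re_clw (hE : S.Eff) {l : α → List (Wd k)} {w : α → Wd k} (hl : Computable l)
    (hw : Computable w) : REPred (fun a => gw (w a) ∈ S.cl ((l a).map gw)) := by
  have h := re_comp (re_cl S hE.N_re) (hl.pair hw)
  exact h

theorem re_cl_list (hE : S.Eff) {l l' : α → List (Wd k)} (hl : Computable l)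
    (hl' : Computable l') : REPred (fun a => ∀ w ∈ l' a, gw w ∈ S.cl ((l a).map gw)) :=
  re_forall_list (R := fun a w => gw w ∈ S.cl ((l a).map gw))
    (re_clw S hE (hl.comp Computable.fst) Computable.snd) hl'

theorem re_NB (hE : S.Eff) {x z : α → Fin n → ℚ} (hx : Computable x) (hz : Computable z) :
    REPred (fun a => S.NB (x a) (z a)) := re_comp (cp_NB S hE).to_re (hx.pair hz)

theorem re_not_NB (hE : S.Eff) {x z : α → Fin n → ℚ} (hx : Computable x) (hz : Computable z) :
    REPred (fun a => ¬ S.NB (x a) (z a)) := re_comp (cp_NB S hE).not.to_re (hx.pair hz)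

theorem re_NQ {x z : α → Fin n → ℚ} (hx : Computable x) (hz : Computable z) :
    REPred (fun a => S.NQ (x a) (z a)) := re_comp (cp_NQ S).to_re (hx.pair hz)

theorem re_not_NQ {x z : α → Fin n → ℚ} (hx : Computable x) (hz : Computable z) :
    REPred (fun a => ¬ S.NQ (x a) (z a)) := re_comp (cp_NQ S).not.to_re (hx.pair hz)

theorem re_Triv {w : α → Wd k} (hw : Computable w) :
    REPred (fun a => S.Triv (gw (w a))) := re_comp (cp_Triv S).to_re hw

theorem re_not_Triv {w : α → Wd k} (hw : Computable w) :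
    REPred (fun a => ¬ S.Triv (gw (w a))) := re_comp (cp_Triv S).not.to_re hw

/-- the list `b.map (d x)` is computable -/
theorem c_dmap {x : α → Fin n → ℚ} {b : α → List (Wd k)} (hx : Computable x)
    (hb : Computable b) : Computable (fun a => ((b a).map gw).map (S.d (x a))) := by
  refine (c_map (g := fun a w => S.d (x a) (gw w)) hb
    (c_d S Computable.snd (hx.comp Computable.fst)).to₂).of_eq (fun a => ?_)
  rw [List.map_map]; rfl

theorem c_κmap {b : α → List (Wd k)} (hb : Computable b) :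
    Computable (fun a => ((b a).map gw).map S.κ) := by
  refine (c_map (g := fun _ w => S.κ (gw w)) hb
    ((c_additive S.κ S.κ_mul).comp Computable.snd).to₂).of_eq (fun a => ?_)
  rw [List.map_map]; rfl

/-- the orbit conditions -/
theorem re_orb (hE : S.Eff) {x : α → Fin n → ℚ} {h c : α → List (Wd k)} (hx : Computable x)
    (hh : Computable h) (hc : Computable c) : REPred (fun a => ∀ w ∈ c a, ∀ u ∈ h a, ∃ w' ∈ c a,
      S.NB (x a) (S.d (x a) (gw u * gw w) - S.d (x a) (gw w'))) := by
  refine re_forall_list (R := fun a w => ∀ u ∈ h a, ∃ w' ∈ c a,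
      S.NB (x a) (S.d (x a) (gw u * gw w) - S.d (x a) (gw w'))) ?_ hc
  refine re_forall_list (R := fun (p : α × Wd k) u => ∃ w' ∈ c p.1,
      S.NB (x p.1) (S.d (x p.1) (gw u * gw p.2) - S.d (x p.1) (gw w'))) ?_
      (hh.comp Computable.fst)
  refine re_exists_list (R := fun (p : (α × Wd k) × Wd k) w' =>
      S.NB (x p.1.1) (S.d (x p.1.1) (gw p.2 * gw p.1.2) - S.d (x p.1.1) (gw w'))) ?_
      (hc.comp (Computable.fst.comp Computable.fst))
  have hx' : Computable (fun q : ((α × Wd k) × Wd k) × Wd k => x q.1.1.1) :=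
    hx.comp (Computable.fst.comp (Computable.fst.comp Computable.fst))
  refine re_NB S hE hx' (c_vsub ?_ (c_d S Computable.snd hx'))
  refine (c_d S (w := fun q : ((α × Wd k) × Wd k) × Wd k => q.1.2 ++ q.1.1.2)
    (c_append (Computable.snd.comp Computable.fst)
      (Computable.snd.comp (Computable.fst.comp Computable.fst))) hx').of_eq (fun q => ?_)
  rw [gw_append]

theorem re_orb' (hE : S.Eff) {x : α → Fin n → ℚ} {h c : α → List (Wd k)} (hx : Computable x)
    (hh : Computable h) (hc : Computable c) : REPred (fun a => ∀ w ∈ c a, ∀ u ∈ h a, ∃ w' ∈ c a,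
      S.NB (x a) (S.d (x a) ((gw u)⁻¹ * gw w) - S.d (x a) (gw w'))) := by
  refine re_forall_list (R := fun a w => ∀ u ∈ h a, ∃ w' ∈ c a,
      S.NB (x a) (S.d (x a) ((gw u)⁻¹ * gw w) - S.d (x a) (gw w'))) ?_ hc
  refine re_forall_list (R := fun (p : α × Wd k) u => ∃ w' ∈ c p.1,
      S.NB (x p.1) (S.d (x p.1) ((gw u)⁻¹ * gw p.2) - S.d (x p.1) (gw w'))) ?_
      (hh.comp Computable.fst)
  refine re_exists_list (R := fun (p : (α × Wd k) × Wd k) w' =>
      S.NB (x p.1.1) (S.d (x p.1.1) ((gw p.2)⁻¹ * gw p.1.2) - S.d (x p.1.1) (gw w'))) ?_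
      (hc.comp (Computable.fst.comp Computable.fst))
  have hx' : Computable (fun q : ((α × Wd k) × Wd k) × Wd k => x q.1.1.1) :=
    hx.comp (Computable.fst.comp (Computable.fst.comp Computable.fst))
  refine re_NB S hE hx' (c_vsub ?_ (c_d S Computable.snd hx'))
  refine (c_d S (w := fun q : ((α × Wd k) × Wd k) × Wd k => winv q.1.2 ++ q.1.1.2)
    (c_append (c_winv.comp (Computable.snd.comp Computable.fst))
      (Computable.snd.comp (Computable.fst.comp Computable.fst))) hx').of_eq (fun q => ?_)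
  rw [gw_append, gw_winv]

/-- the conditions of `conf_gen` -/
theorem re_sch (hE : S.Eff) {x : α → Fin n → ℚ} {Λ h c : α → List (Wd k)} (hx : Computable x)
    (hΛ : Computable Λ) (hh : Computable h) (hc : Computable c) :
    REPred (fun a => ∀ w ∈ c a, ∀ u ∈ h a, ∃ w' ∈ c a,
      S.NB (x a) (S.d (x a) (gw u * gw w) - S.d (x a) (gw w')) ∧
      (gw w')⁻¹ * (gw u * gw w) ∈ S.cl ((Λ a).map gw)) := by
  refine re_forall_list (R := fun a w => ∀ u ∈ h a, ∃ w' ∈ c a,
      S.NB (x a) (S.d (x a) (gw u * gw w) - S.d (x a) (gw w')) ∧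
      (gw w')⁻¹ * (gw u * gw w) ∈ S.cl ((Λ a).map gw)) ?_ hc
  refine re_forall_list (R := fun (p : α × Wd k) u => ∃ w' ∈ c p.1,
      S.NB (x p.1) (S.d (x p.1) (gw u * gw p.2) - S.d (x p.1) (gw w')) ∧
      (gw w')⁻¹ * (gw u * gw p.2) ∈ S.cl ((Λ p.1).map gw)) ?_
      (hh.comp Computable.fst)
  refine re_exists_list (R := fun (p : (α × Wd k) × Wd k) w' =>
      S.NB (x p.1.1) (S.d (x p.1.1) (gw p.2 * gw p.1.2) - S.d (x p.1.1) (gw w')) ∧
      (gw w')⁻¹ * (gw p.2 * gw p.1.2) ∈ S.cl ((Λ p.1.1).map gw)) ?_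
      (hc.comp (Computable.fst.comp Computable.fst))
  have hx' : Computable (fun q : ((α × Wd k) × Wd k) × Wd k => x q.1.1.1) :=
    hx.comp (Computable.fst.comp (Computable.fst.comp Computable.fst))
  have hw : Computable (fun q : ((α × Wd k) × Wd k) × Wd k => q.1.2 ++ q.1.1.2) :=
    c_append (Computable.snd.comp Computable.fst)
      (Computable.snd.comp (Computable.fst.comp Computable.fst))
  refine re_and (re_NB S hE hx' (c_vsub ?_ (c_d S Computable.snd hx'))) ?_
  · refine (c_d S hw hx').of_eq (fun q => ?_)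
    rw [gw_append]
  · refine (re_clw S hE (hΛ.comp (Computable.fst.comp (Computable.fst.comp Computable.fst)))
      (w := fun q : ((α × Wd k) × Wd k) × Wd k => winv q.2 ++ (q.1.2 ++ q.1.1.2))
      (c_append (c_winv.comp Computable.snd) hw)).of_eq (fun q => ?_)
    rw [gw_append, gw_append, gw_winv]

theorem re_sch' (hE : S.Eff) {x : α → Fin n → ℚ} {Λ h c : α → List (Wd k)} (hx : Computable x)
    (hΛ : Computable Λ) (hh : Computable h) (hc : Computable c) :
    REPred (fun a => ∀ w ∈ c a, ∀ u ∈ h a, ∃ w' ∈ c a,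
      S.NB (x a) (S.d (x a) ((gw u)⁻¹ * gw w) - S.d (x a) (gw w')) ∧
      (gw w')⁻¹ * ((gw u)⁻¹ * gw w) ∈ S.cl ((Λ a).map gw)) := by
  refine re_forall_list (R := fun a w => ∀ u ∈ h a, ∃ w' ∈ c a,
      S.NB (x a) (S.d (x a) ((gw u)⁻¹ * gw w) - S.d (x a) (gw w')) ∧
      (gw w')⁻¹ * ((gw u)⁻¹ * gw w) ∈ S.cl ((Λ a).map gw)) ?_ hc
  refine re_forall_list (R := fun (p : α × Wd k) u => ∃ w' ∈ c p.1,
      S.NB (x p.1) (S.d (x p.1) ((gw u)⁻¹ * gw p.2) - S.d (x p.1) (gw w')) ∧
      (gw w')⁻¹ * ((gw u)⁻¹ * gw p.2) ∈ S.cl ((Λ p.1).map gw)) ?_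
      (hh.comp Computable.fst)
  refine re_exists_list (R := fun (p : (α × Wd k) × Wd k) w' =>
      S.NB (x p.1.1) (S.d (x p.1.1) ((gw p.2)⁻¹ * gw p.1.2) - S.d (x p.1.1) (gw w')) ∧
      (gw w')⁻¹ * ((gw p.2)⁻¹ * gw p.1.2) ∈ S.cl ((Λ p.1.1).map gw)) ?_
      (hc.comp (Computable.fst.comp Computable.fst))
  have hx' : Computable (fun q : ((α × Wd k) × Wd k) × Wd k => x q.1.1.1) :=
    hx.comp (Computable.fst.comp (Computable.fst.comp Computable.fst))
  have hw : Computable (fun q : ((α × Wd k) × Wd k) × Wd k => winv q.1.2 ++ q.1.1.2) :=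
    c_append (c_winv.comp (Computable.snd.comp Computable.fst))
      (Computable.snd.comp (Computable.fst.comp Computable.fst))
  refine re_and (re_NB S hE hx' (c_vsub ?_ (c_d S Computable.snd hx'))) ?_
  · refine (c_d S hw hx').of_eq (fun q => ?_)
    rw [gw_append, gw_winv]
  · refine (re_clw S hE (hΛ.comp (Computable.fst.comp (Computable.fst.comp Computable.fst)))
      (w := fun q : ((α × Wd k) × Wd k) × Wd k => winv q.2 ++ (winv q.1.2 ++ q.1.1.2))
      (c_append (c_winv.comp Computable.snd) hw)).of_eq (fun q => ?_)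
    rw [gw_append, gw_append, gw_winv, gw_winv]

/-! ### kinds -/

/-- kind `T` -/
def KT (x : Fin n → ℚ) (Λ b h : List (Wd k)) : Prop :=
  (∀ w ∈ Λ, S.Triv (gw w)) ∧ (∀ w ∈ h, S.NQ x (S.d x (gw w))) ∧
    Ind (S.NQ x) ((b.map gw).map (S.d x))

/-- kind `K` -/
def KK (x : Fin n → ℚ) (b h : List (Wd k)) (g₀ : Wd k) : Prop :=
  gw g₀ ∈ S.C x ∧ ¬ S.Triv (gw g₀) ∧ ¬ S.NQ x (S.d x (gw g₀)) ∧ (∀ w ∈ h, S.κ (gw w) = 0) ∧
    Ind (fun v => v = 0) ((b.map gw).map S.κ)

theorem re_KT {x : α → Fin n → ℚ} {Λ b h : α → List (Wd k)} (hx : Computable x)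
    (hΛ : Computable Λ) (hb : Computable b) (hh : Computable h) :
    REPred (fun a => KT S (x a) (Λ a) (b a) (h a)) := by
  refine re_and ?_ (re_and ?_ ?_)
  · exact re_forall_list (R := fun _ w => S.Triv (gw w)) (re_Triv S Computable.snd) hΛ
  · exact re_forall_list (R := fun a w => S.NQ (x a) (S.d (x a) (gw w)))
      (re_NQ S (hx.comp Computable.fst) (c_d S Computable.snd (hx.comp Computable.fst))) hh
  · exact re_comp (cp_Ind_NQ S).to_re (hx.pair (c_dmap S hx hb))

theorem re_KK {x : α → Fin n → ℚ} {b h : α → List (Wd k)} {g : α → Wd k} (hx : Computable x)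
    (hb : Computable b) (hh : Computable h) (hg : Computable g) :
    REPred (fun a => KK S (x a) (b a) (h a) (g a)) := by
  refine re_and (re_C S hx hg) (re_and (re_not_Triv S hg) (re_and ?_ (re_and ?_ ?_)))
  · exact re_not_NQ S hx (c_d S hg hx)
  · exact re_forall_list (R := fun _ w => S.κ (gw w) = 0)
      (re_eq ((c_additive S.κ S.κ_mul).comp Computable.snd) (Computable.const 0)) hh
  · exact re_comp (cp_Ind_zero (m := S.q)).to_re (c_κmap S hb)

/-! ### the certificates for `¬ T` -/

theorem re_NTZ (hE : S.Eff) {x z : α → Fin n → ℚ} {b c : α → List (Wd k)} (hx : Computable x)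
    (hz : Computable z) (hb : Computable b) (hc : Computable c) :
    REPred (fun a => S.NTZ (x a) (z a) ((b a).map gw) ((c a).map gw)) := by
  have h1 : REPred (fun a => b a = [] ∧ ∀ w ∈ c a, ¬ S.NB (x a) (S.d (x a) (gw w) - z a)) := by
    refine re_and (re_eq hb (Computable.const [])) ?_
    refine re_forall_list (R := fun a w => ¬ S.NB (x a) (S.d (x a) (gw w) - z a)) ?_ hc
    exact re_not_NB S hE (hx.comp Computable.fst) (c_vsub
      (c_d S Computable.snd (hx.comp Computable.fst)) (hz.comp Computable.fst))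
  refine h1.of_eq (fun a => ?_)
  simp [NTZ]

/-- the common third certificate -/
theorem re_third (hE : S.Eff) {x z : α → Fin n → ℚ} {b c : α → List (Wd k)} {e : α → List ℤ}
    (hx : Computable x) (hz : Computable z) (hb : Computable b) (hc : Computable c)
    (he : Computable e) : REPred (fun a => ∀ g ∈ (c a).map gw,
      ¬ S.NB (x a) (S.d (x a) (pw ((b a).map gw) (e a) * g) - z a)) := by
  have h1 : REPred (fun a => ∀ w ∈ c a,
      ¬ S.NB (x a) (S.d (x a) (gw (wpw (b a) (e a) ++ w)) - z a)) := by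
    refine re_forall_list (R := fun a w =>
      ¬ S.NB (x a) (S.d (x a) (gw (wpw (b a) (e a) ++ w)) - z a)) ?_ hc
    refine re_not_NB S hE (hx.comp Computable.fst) (c_vsub
      (c_d S ?_ (hx.comp Computable.fst)) (hz.comp Computable.fst))
    exact c_append ((c_wpw.comp hb he).comp Computable.fst) Computable.snd
  refine h1.of_eq (fun a => ?_)
  simp only [List.forall_mem_map, gw_append, gw_wpw]

theorem re_length {σ τ : Type*} [Primcodable σ] [Primcodable τ] {e : α → List σ} {b : α → List τ}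
    (he : Computable e) (hb : Computable b) : REPred (fun a => (e a).length = (b a).length) :=
  re_eq (Computable.list_length.comp he) (Computable.list_length.comp hb)

theorem re_NTT (hE : S.Eff) {x z : α → Fin n → ℚ} {b c : α → List (Wd k)} (hx : Computable x)
    (hz : Computable z) (hb : Computable b) (hc : Computable c) :
    REPred (fun a => S.NTT (x a) (z a) ((b a).map gw) ((c a).map gw)) := by
  refine re_or ?_ (re_or ?_ ?_)
  · refine (re_comp (cp_NQ_lq S).not.to_re (hx.pair ((c_dmap S hx hb).pair hz))).of_eq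
      (fun a => ?_)
    simp only [List.length_map]
  · refine re_exists (R := fun a (m : ℕ) => 0 < m ∧ ∃ e : List ℤ, e.length = ((b a).map gw).length ∧
      S.NQ (x a) (m • z a - lc (((b a).map gw).map (S.d (x a))) e) ∧ ∃ i ∈ e, ¬ (m : ℤ) ∣ i) ?_
    refine re_and (re_pos Computable.snd) ?_
    refine re_exists (R := fun (p : α × ℕ) (e : List ℤ) => e.length = ((b p.1).map gw).length ∧
      S.NQ (x p.1) (p.2 • z p.1 - lc (((b p.1).map gw).map (S.d (x p.1))) e) ∧
        ∃ i ∈ e, ¬ (p.2 : ℤ) ∣ i) ?_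
    have hx' : Computable (fun q : (α × ℕ) × List ℤ => x q.1.1) :=
      hx.comp (Computable.fst.comp Computable.fst)
    have hb' : Computable (fun q : (α × ℕ) × List ℤ => b q.1.1) :=
      hb.comp (Computable.fst.comp Computable.fst)
    refine re_and ?_ (re_and ?_ ?_)
    · refine (re_length Computable.snd hb').of_eq (fun a => ?_)
      rw [List.length_map]
    · refine re_NQ S hx' (c_vsub (c_nsmul (Computable.snd.comp Computable.fst)
        (hz.comp (Computable.fst.comp Computable.fst))) ?_)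
      exact c_lc.comp (c_dmap S hx' hb') Computable.snd
    · exact re_not_dvd_list (Computable.snd.comp Computable.fst) Computable.snd
  · refine re_exists (R := fun a (e : List ℤ) => e.length = ((b a).map gw).length ∧
      S.NQ (x a) (z a - lc (((b a).map gw).map (S.d (x a))) e) ∧
      ∀ g ∈ (c a).map gw, ¬ S.NB (x a) (S.d (x a) (pw ((b a).map gw) e * g) - z a)) ?_
    have hx' : Computable (fun q : α × List ℤ => x q.1) := hx.comp Computable.fst
    have hb' : Computable (fun q : α × List ℤ => b q.1) := hb.comp Computable.fst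
    refine re_and ?_ (re_and ?_ ?_)
    · refine (re_length Computable.snd hb').of_eq (fun a => ?_)
      rw [List.length_map]
    · exact re_NQ S hx' (c_vsub (hz.comp Computable.fst)
        (c_lc.comp (c_dmap S hx' hb') Computable.snd))
    · exact re_third S hE hx' (hz.comp Computable.fst) hb' (hc.comp Computable.fst)
        Computable.snd

end

end Pool.Agent.CP
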