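import Pool.Agent.Helper98.CP.Asm1
import Pool.Agent.Helper23.CP.OA6

set_option autoImplicit false

namespace Pool.Agent.CP

open Stage Pool.Agent.CQ

section

variable {k n : ℕ} (S : Stage (FreeGroup (Fin k)) (Fin n → ℚ))
variable {α : Type*} [Primcodable α]

/-- applying an operator to a vector is computable -/
theorem c_opv {l : α → List (ℚ × Wd k)} {v : α → Fin n → ℚ} (hl : Computable l)
    (hv : Computable v) : Computable (fun a => S.op (lgw (l a)) (v a)) := by
  refine (c_mulVec ((c_op S).comp hl) hv).of_eq (fun a => ?_)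
  rw [LinearMap.toMatrix'_mulVec]

/-- word version of `Sol` -/
theorem re_Sol {x z : α → Fin n → ℚ} {g : α → Wd k} {l : α → List (ℚ × Wd k)}
    (hx : Computable x) (hz : Computable z) (hg : Computable g) (hl : Computable l) :
    REPred (fun a => S.Sol (x a) (z a) (gw (g a)) (lgw (l a))) := by
  have h1 : REPred (fun a => (∀ p ∈ l a, gw p.2 ∈ S.C (x a)) ∧
      S.NQ (x a) (S.op (lgw (l a)) (S.d (x a) (gw (g a))) -
        (S.d (x a) (gw (g a)) + (S.ρ (gw (g a)) (z a) - z a)))) := by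
    refine re_and ?_ ?_
    · refine re_forall_list (R := fun a (p : ℚ × Wd k) => gw p.2 ∈ S.C (x a)) ?_ hl
      exact re_C S (hx.comp Computable.fst) (Computable.snd.comp Computable.snd)
    · refine re_NQ S hx (c_vsub (c_opv S hl (c_d S hg hx)) (c_vadd (c_d S hg hx)
        (c_vsub (c_act S.ρ hg hz) hz)))
  refine h1.of_eq (fun a => ?_)
  simp only [Sol, lgw, List.forall_mem_map]

/-- operators as combinations of vectors -/
theorem op_zip_apply {G V : Type*} [Group G] [AddCommGroup V] [Module ℚ V] (S : Stage G V)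
    (v : V) : ∀ (a : List G) (q : List ℚ), S.op (q.zip a) v = lq (a.map fun g => S.ρ g v) q := by
  intro a
  induction a with
  | nil => intro q; cases q <;> simp [op, lq]
  | cons g a ih =>
    intro q
    cases q with
    | nil => simp [op, lq]
    | cons r q =>
      have h := ih q
      simp only [op, List.zip_cons_cons, List.map_cons, List.sum_cons, LinearMap.add_apply,
        LinearMap.smul_apply, lq] at h ⊢
      rw [h]

/-- word version of the certificate of `no_sol_iff` -/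
def NS (x z : Fin n → ℚ) (Λ : List (Wd k)) (g₀ : Wd k) (a : List (Wd k)) : Prop :=
  (∀ w ∈ a, gw w ∈ S.C x) ∧ (∃ w ∈ a, w = []) ∧
  (∀ w ∈ a, ∀ s ∈ Λ, ∃ r : List (ℚ × Wd k), r.map Prod.snd = a ∧
    ∀ v ∈ S.U, S.op (lgw [((1 : ℚ), s ++ w)]) v - S.op (lgw r) v ∈ S.U') ∧
  (∀ w ∈ a, ∀ s ∈ Λ, ∃ r : List (ℚ × Wd k), r.map Prod.snd = a ∧
    ∀ v ∈ S.U, S.op (lgw [((1 : ℚ), winv s ++ w)]) v - S.op (lgw r) v ∈ S.U') ∧
  ¬ ∃ q : List ℚ, q.length = (a.map fun w => S.ρ (gw w) (S.d x (gw g₀))).length ∧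
    S.NQ x ((S.d x (gw g₀) + (S.ρ (gw g₀) z - z)) -
      lq (a.map fun w => S.ρ (gw w) (S.d x (gw g₀))) q)

theorem c_single {u : α → Wd k} (hu : Computable u) :
    Computable (fun b => [((1 : ℚ), u b)]) :=
  Computable.list_cons.comp ((Computable.const (1 : ℚ)).pair hu) (Computable.const [])

/-- the closure conditions of the certificate -/
theorem re_NS_aux {Λ l : α → List (Wd k)} (f : Wd k → Wd k → Wd k) (hf : Computable₂ f)
    (hΛ : Computable Λ) (hl : Computable l) :
    REPred (fun a => ∀ w ∈ l a, ∀ s ∈ Λ a, ∃ r : List (ℚ × Wd k), r.map Prod.snd = l a ∧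
    ∀ v ∈ S.U, S.op (lgw [((1 : ℚ), f s w)]) v - S.op (lgw r) v ∈ S.U') := by
  refine re_forall_list (R := fun a w => ∀ s ∈ Λ a, ∃ r : List (ℚ × Wd k),
    r.map Prod.snd = l a ∧ ∀ v ∈ S.U, S.op (lgw [((1 : ℚ), f s w)]) v - S.op (lgw r) v ∈ S.U')
    ?_ hl
  refine re_forall_list (R := fun (p : α × Wd k) s => ∃ r : List (ℚ × Wd k),
    r.map Prod.snd = l p.1 ∧
      ∀ v ∈ S.U, S.op (lgw [((1 : ℚ), f s p.2)]) v - S.op (lgw r) v ∈ S.U') ?_
    (hΛ.comp Computable.fst)
  refine re_exists (R := fun (p : (α × Wd k) × Wd k) (r : List (ℚ × Wd k)) =>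
    r.map Prod.snd = l p.1.1 ∧
      ∀ v ∈ S.U, S.op (lgw [((1 : ℚ), f p.2 p.1.2)]) v - S.op (lgw r) v ∈ S.U') ?_
  refine re_and ?_ ?_
  · exact re_eq (c_map (g := fun _ (p : ℚ × Wd k) => p.2) Computable.snd
      (Computable.snd.comp Computable.snd).to₂)
      (hl.comp (Computable.fst.comp (Computable.fst.comp Computable.fst)))
  · have h1 : Computable (fun q : ((α × Wd k) × Wd k) × List (ℚ × Wd k) =>
        ([((1 : ℚ), f q.1.2 q.1.1.2)], q.2)) :=
      (c_single (hf.comp (Computable.snd.comp Computable.fst)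
        (Computable.snd.comp (Computable.fst.comp Computable.fst)))).pair Computable.snd
    have h2 := re_comp (cp_opEq S).to_re h1
    exact h2

theorem re_NS {x z : α → Fin n → ℚ} {Λ l : α → List (Wd k)} {g : α → Wd k}
    (hx : Computable x) (hz : Computable z) (hΛ : Computable Λ) (hg : Computable g)
    (hl : Computable l) : REPred (fun a => NS S (x a) (z a) (Λ a) (g a) (l a)) := by
  refine re_and (re_C_list S hx hl) (re_and ?_ (re_and ?_ (re_and ?_ ?_)))
  · exact re_exists_list (R := fun _ w => w = []) (re_eq Computable.snd (Computable.const [])) hl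
  · exact re_NS_aux S (fun s w => s ++ w) (c_append Computable.fst Computable.snd).to₂ hΛ hl
  · exact re_NS_aux S (fun s w => winv s ++ w)
      (c_append (c_winv.comp Computable.fst) Computable.snd).to₂ hΛ hl
  · have h1 : Computable (fun a => (l a).map fun w => S.ρ (gw w) (S.d (x a) (gw (g a)))) :=
      c_map (g := fun a w => S.ρ (gw w) (S.d (x a) (gw (g a)))) hl
        (c_act S.ρ Computable.snd ((c_d S hg hx).comp Computable.fst)).to₂
    have h2 : Computable (fun a => S.d (x a) (gw (g a)) +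
        (S.ρ (gw (g a)) (z a) - z a)) :=
      c_vadd (c_d S hg hx) (c_vsub (c_act S.ρ hg hz) hz)
    have h3 := re_comp (cp_NQ_lq S).not.to_re (hx.pair (h1.pair h2))
    exact h3

theorem ns_iff {x z : Fin n → ℚ} {Λ : List (Wd k)} {g₀ : Wd k} (hΛ : S.Gen x (Λ.map gw))
    (hz : z ∈ S.U) (hg₀ : gw g₀ ∈ S.C x) :
    (¬ ∃ l : List (ℚ × FreeGroup (Fin k)), S.Sol x z (gw g₀) l) ↔
      ∃ a : List (Wd k), NS S x z Λ g₀ a := by
  rw [no_sol_iff hΛ hz hg₀]
  have hsing : ∀ (w : Wd k) (v : Fin n → ℚ), S.op (lgw [((1 : ℚ), w)]) v = S.ρ (gw w) v := by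
    intro w v; simp [lgw, op]
  have hr1 : ∀ (a : List (Wd k)) (q : List ℚ), lgw (q.zip a) = q.zip (a.map gw) := by
    intro a
    induction a with
    | nil => intro q; cases q <;> simp [lgw]
    | cons w a ih =>
      intro q
      cases q with
      | nil => simp [lgw]
      | cons r q =>
        have h := ih q
        simp only [lgw] at h ⊢
        simp only [List.zip_cons_cons, List.map_cons, h]
  have hr2 : ∀ (r : List (ℚ × Wd k)), r = (r.map Prod.fst).zip (r.map Prod.snd) := by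
    intro r
    induction r with
    | nil => rfl
    | cons p r ih => simp only [List.map_cons, List.zip_cons_cons, ← ih]
  have hlast : ∀ (a : List (Wd k)) (q : List ℚ),
      S.NQ x (S.op (q.zip (a.map gw)) (S.d x (gw g₀)) -
        (S.d x (gw g₀) + (S.ρ (gw g₀) z - z))) ↔
      S.NQ x ((S.d x (gw g₀) + (S.ρ (gw g₀) z - z)) -
        lq (a.map fun w => S.ρ (gw w) (S.d x (gw g₀))) q) := by
    intro a q
    rw [op_zip_apply, List.map_map]
    constructor
    · intro h
      have := h.neg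
      rw [neg_sub] at this
      exact this
    · intro h
      have := h.neg
      rw [neg_sub] at this
      exact this
  constructor
  · rintro ⟨a, h1, h2, h3, h4, h5⟩
    have ha : (a.map FreeGroup.toWord).map gw = a := by
      rw [List.map_map]
      conv_rhs => rw [← List.map_id a]
      exact List.map_congr_left (fun g _ => FreeGroup.mk_toWord)
    refine ⟨a.map FreeGroup.toWord, ?_, ?_, ?_, ?_, ?_⟩
    · intro w hw
      obtain ⟨g, hg, rfl⟩ := List.mem_map.1 hw
      rw [gw, FreeGroup.mk_toWord]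
      exact h1 g hg
    · exact ⟨[], List.mem_map.2 ⟨1, h2, FreeGroup.toWord_one⟩, rfl⟩
    · intro w hw s hs
      obtain ⟨g, hg, rfl⟩ := List.mem_map.1 hw
      obtain ⟨q, hq, h⟩ := h3 g hg (gw s) (List.mem_map.2 ⟨s, hs, rfl⟩)
      refine ⟨q.zip (a.map FreeGroup.toWord), ?_, fun v hv => ?_⟩
      · rw [List.map_snd_zip]
        rw [List.length_map, hq]
      · rw [hsing, gw_append, hr1, ha]
        have := h v hv
        rwa [show gw g.toWord = g from FreeGroup.mk_toWord]
    · intro w hw s hs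
      obtain ⟨g, hg, rfl⟩ := List.mem_map.1 hw
      obtain ⟨q, hq, h⟩ := h4 g hg (gw s) (List.mem_map.2 ⟨s, hs, rfl⟩)
      refine ⟨q.zip (a.map FreeGroup.toWord), ?_, fun v hv => ?_⟩
      · rw [List.map_snd_zip]
        rw [List.length_map, hq]
      · rw [hsing, gw_append, gw_winv, hr1, ha]
        have := h v hv
        rwa [show gw g.toWord = g from FreeGroup.mk_toWord]
    · rintro ⟨q, hq, h⟩
      refine h5 ⟨q, by simpa using hq, ?_⟩
      have h' := (hlast (a.map FreeGroup.toWord) q).2 h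
      rwa [ha] at h'
  · rintro ⟨a, h1, ⟨w0, hw0, rfl⟩, h3, h4, h5⟩
    refine ⟨a.map gw, ?_, ?_, ?_, ?_, ?_⟩
    · intro g hg
      obtain ⟨w, hw, rfl⟩ := List.mem_map.1 hg
      exact h1 w hw
    · exact List.mem_map.2 ⟨[], hw0, FreeGroup.one_eq_mk.symm⟩
    · intro g hg s hs
      obtain ⟨w, hw, rfl⟩ := List.mem_map.1 hg
      obtain ⟨s, hs', rfl⟩ := List.mem_map.1 hs
      obtain ⟨r, hr, h⟩ := h3 w hw s hs'
      refine ⟨r.map Prod.fst, ?_, fun v hv => ?_⟩
      · rw [List.length_map, List.length_map, ← hr, List.length_map]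
      · have h' := h v hv
        rw [hsing, gw_append] at h'
        rwa [← hr1, ← hr, ← hr2]
    · intro g hg s hs
      obtain ⟨w, hw, rfl⟩ := List.mem_map.1 hg
      obtain ⟨s, hs', rfl⟩ := List.mem_map.1 hs
      obtain ⟨r, hr, h⟩ := h4 w hw s hs'
      refine ⟨r.map Prod.fst, ?_, fun v hv => ?_⟩
      · rw [List.length_map, List.length_map, ← hr, List.length_map]
      · have h' := h v hv
        rw [hsing, gw_append, gw_winv] at h'
        rwa [← hr1, ← hr, ← hr2]
    · rintro ⟨q, hq, h⟩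
      exact h5 ⟨q, by simpa using hq, (hlast a q).1 h⟩

/-- word version of `NTK` -/
def NK (x z : Fin n → ℚ) (Λ b c : List (Wd k)) (g₀ : Wd k) : Prop :=
  (∃ a : List (Wd k), NS S x z Λ g₀ a) ∨
  (∃ l : List (ℚ × Wd k), S.Sol x z (gw g₀) (lgw l) ∧
    ¬ ∃ g : FreeGroup (Fin k), ∀ v ∈ S.U, S.op (lgw l) v - S.ρ g v ∈ S.U') ∨
  (∃ l : List (ℚ × Wd k), S.Sol x z (gw g₀) (lgw l) ∧ ∃ g : Wd k,
    (∀ v ∈ S.U, S.op (lgw l) v - S.op (lgw [((1 : ℚ), g)]) v ∈ S.U') ∧
    ((¬ ∃ q : List ℚ, q.length = ((b.map gw).map S.κ).length ∧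
        S.κ (gw g) = lq ((b.map gw).map S.κ) q) ∨
     (∃ m : ℕ, 0 < m ∧ ∃ e : List ℤ, e.length = b.length ∧
        m • S.κ (gw g) = lc ((b.map gw).map S.κ) e ∧ ∃ i ∈ e, ¬ (m : ℤ) ∣ i) ∨
     (∃ e : List ℤ, e.length = b.length ∧ S.κ (gw g) = lc ((b.map gw).map S.κ) e ∧
        ∀ g' ∈ c.map gw, ¬ S.NB x (S.d x (pw (b.map gw) e * g') - z))))

theorem nk_iff {x z : Fin n → ℚ} {Λ b c : List (Wd k)} {g₀ : Wd k} (hΛ : S.Gen x (Λ.map gw))
    (hz : z ∈ S.U) (hg₀ : gw g₀ ∈ S.C x) :
    S.NTK x z (b.map gw) (c.map gw) (gw g₀) ↔ NK S x z Λ b c g₀ := by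
  have hsing : ∀ (w : Wd k) (v : Fin n → ℚ), S.op (lgw [((1 : ℚ), w)]) v = S.ρ (gw w) v := by
    intro w v; simp [lgw, op]
  have hl : ∀ l : List (ℚ × FreeGroup (Fin k)), ∃ l' : List (ℚ × Wd k), lgw l' = l := by
    intro l
    refine ⟨l.map fun p => (p.1, p.2.toWord), ?_⟩
    rw [lgw, List.map_map]
    conv_rhs => rw [← List.map_id l]
    refine List.map_congr_left (fun p _ => ?_)
    simp only [Function.comp_apply, id]
    rw [show gw p.2.toWord = p.2 from FreeGroup.mk_toWord]
  unfold NTK NK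
  refine or_congr (ns_iff S hΛ hz hg₀) (or_congr ?_ ?_)
  · constructor
    · rintro ⟨l, h1, h2⟩
      obtain ⟨l, rfl⟩ := hl l
      exact ⟨l, h1, h2⟩
    · rintro ⟨l, h1, h2⟩
      exact ⟨lgw l, h1, h2⟩
  · constructor
    · rintro ⟨l, h1, g, h2, h3⟩
      obtain ⟨l, rfl⟩ := hl l
      obtain ⟨w, rfl⟩ := gw_surj g
      refine ⟨l, h1, w, fun v hv => ?_, ?_⟩
      · rw [hsing]; exact h2 v hv
      · simpa only [List.length_map] using h3
    · rintro ⟨l, h1, w, h2, h3⟩
      refine ⟨lgw l, h1, gw w, fun v hv => ?_, ?_⟩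
      · rw [← hsing]; exact h2 v hv
      · simpa only [List.length_map] using h3

theorem re_NK (hE : S.Eff) {x z : α → Fin n → ℚ} {Λ b c : α → List (Wd k)} {g : α → Wd k}
    (hx : Computable x) (hz : Computable z) (hΛ : Computable Λ) (hb : Computable b)
    (hc : Computable c) (hg : Computable g) :
    REPred (fun a => NK S (x a) (z a) (Λ a) (b a) (c a) (g a)) := by
  have hκ : ∀ {β : Type _} [Primcodable β] {w : β → Wd k}, Computable w →
      Computable (fun a => S.κ (gw (w a))) := fun hw => (c_additive S.κ S.κ_mul).comp hw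
  refine re_or ?_ (re_or ?_ ?_)
  · exact re_exists (R := fun a (l : List (Wd k)) => NS S (x a) (z a) (Λ a) (g a) l)
      (re_NS S (hx.comp Computable.fst) (hz.comp Computable.fst) (hΛ.comp Computable.fst)
        (hg.comp Computable.fst) Computable.snd)
  · refine re_exists (R := fun a (l : List (ℚ × Wd k)) =>
      S.Sol (x a) (z a) (gw (g a)) (lgw l) ∧
      ¬ ∃ g : FreeGroup (Fin k), ∀ v ∈ S.U, S.op (lgw l) v - S.ρ g v ∈ S.U') ?_
    refine re_and (re_Sol S (hx.comp Computable.fst) (hz.comp Computable.fst)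
      (hg.comp Computable.fst) Computable.snd) ?_
    have h1 := re_comp (re_not_mem_image S)
      (Computable.snd : Computable (Prod.snd : α × List (ℚ × Wd k) → _))
    exact h1
  · refine re_exists (R := fun a (l : List (ℚ × Wd k)) => S.Sol (x a) (z a) (gw (g a)) (lgw l) ∧
      ∃ g : Wd k,
      (∀ v ∈ S.U, S.op (lgw l) v - S.op (lgw [((1 : ℚ), g)]) v ∈ S.U') ∧
      ((¬ ∃ q : List ℚ, q.length = (((b a).map gw).map S.κ).length ∧
        S.κ (gw g) = lq (((b a).map gw).map S.κ) q) ∨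
      (∃ m : ℕ, 0 < m ∧ ∃ e : List ℤ, e.length = (b a).length ∧
        m • S.κ (gw g) = lc (((b a).map gw).map S.κ) e ∧ ∃ i ∈ e, ¬ (m : ℤ) ∣ i) ∨
      (∃ e : List ℤ, e.length = (b a).length ∧ S.κ (gw g) = lc (((b a).map gw).map S.κ) e ∧
        ∀ g' ∈ (c a).map gw,
          ¬ S.NB (x a) (S.d (x a) (pw ((b a).map gw) e * g') - (z a))))) ?_
    refine re_and (re_Sol S (hx.comp Computable.fst) (hz.comp Computable.fst)
      (hg.comp Computable.fst) Computable.snd) ?_
    refine re_exists (R := fun (p : α × List (ℚ × Wd k)) (g : Wd k) =>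
      (∀ v ∈ S.U, S.op (lgw p.2) v - S.op (lgw [((1 : ℚ), g)]) v ∈ S.U') ∧
      ((¬ ∃ q : List ℚ, q.length = (((b p.1).map gw).map S.κ).length ∧
        S.κ (gw g) = lq (((b p.1).map gw).map S.κ) q) ∨
      (∃ m : ℕ, 0 < m ∧ ∃ e : List ℤ, e.length = (b p.1).length ∧
        m • S.κ (gw g) = lc (((b p.1).map gw).map S.κ) e ∧ ∃ i ∈ e, ¬ (m : ℤ) ∣ i) ∨
      (∃ e : List ℤ, e.length = (b p.1).length ∧ S.κ (gw g) = lc (((b p.1).map gw).map S.κ) e ∧
        ∀ g' ∈ (c p.1).map gw,
          ¬ S.NB (x p.1) (S.d (x p.1) (pw ((b p.1).map gw) e * g') - (z p.1))))) ?_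
    have hb' : Computable (fun q : (α × List (ℚ × Wd k)) × Wd k => b q.1.1) :=
      hb.comp (Computable.fst.comp Computable.fst)
    refine re_and ?_ (re_or ?_ (re_or ?_ ?_))
    · have h1 : Computable (fun q : (α × List (ℚ × Wd k)) × Wd k =>
          (q.1.2, [((1 : ℚ), q.2)])) :=
        (Computable.snd.comp Computable.fst).pair (c_single Computable.snd)
      have h2 := re_comp (cp_opEq S).to_re h1
      exact h2
    · have h1 := re_comp (cp_eq_lq (m := S.q)).not.to_re
        ((c_κmap S hb').pair (hκ (Computable.snd (α := α × List (ℚ × Wd k)) (β := Wd k))))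
      exact h1
    · refine re_exists (R := fun (q : (α × List (ℚ × Wd k)) × Wd k) (m : ℕ) =>
        0 < m ∧ ∃ e : List ℤ, e.length = (b q.1.1).length ∧
        m • S.κ (gw q.2) = lc (((b q.1.1).map gw).map S.κ) e ∧ ∃ i ∈ e, ¬ (m : ℤ) ∣ i) ?_
      refine re_and (re_pos Computable.snd) ?_
      refine re_exists (R := fun (q : ((α × List (ℚ × Wd k)) × Wd k) × ℕ) (e : List ℤ) =>
        e.length = (b q.1.1.1).length ∧
        q.2 • S.κ (gw q.1.2) = lc (((b q.1.1.1).map gw).map S.κ) e ∧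
          ∃ i ∈ e, ¬ (q.2 : ℤ) ∣ i) ?_
      have hb'' : Computable (fun q : (((α × List (ℚ × Wd k)) × Wd k) × ℕ) × List ℤ =>
        b q.1.1.1.1) := hb'.comp (Computable.fst.comp Computable.fst)
      refine re_and (re_length Computable.snd hb'') (re_and ?_ ?_)
      · refine re_eq (c_nsmul (Computable.snd.comp Computable.fst)
          (hκ (Computable.snd.comp (Computable.fst.comp Computable.fst)))) ?_
        exact c_lc.comp (c_κmap S hb'') Computable.snd
      · exact re_not_dvd_list (Computable.snd.comp Computable.fst) Computable.snd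
    · refine re_exists (R := fun (q : (α × List (ℚ × Wd k)) × Wd k) (e : List ℤ) =>
        e.length = (b q.1.1).length ∧ S.κ (gw q.2) = lc (((b q.1.1).map gw).map S.κ) e ∧
        ∀ g' ∈ (c q.1.1).map gw,
          ¬ S.NB (x q.1.1) (S.d (x q.1.1) (pw ((b q.1.1).map gw) e * g') - (z q.1.1))) ?_
      have hb'' : Computable (fun q : ((α × List (ℚ × Wd k)) × Wd k) × List ℤ =>
        b q.1.1.1) := hb'.comp Computable.fst
      refine re_and (re_length Computable.snd hb'') (re_and ?_ ?_)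
      · exact re_eq (hκ (Computable.snd.comp Computable.fst))
          (c_lc.comp (c_κmap S hb'') Computable.snd)
      · exact re_third S hE
          (hx.comp (Computable.fst.comp (Computable.fst.comp Computable.fst)))
          (hz.comp (Computable.fst.comp (Computable.fst.comp Computable.fst))) hb''
          (hc.comp (Computable.fst.comp (Computable.fst.comp Computable.fst)))
          Computable.snd

end

end Pool.Agent.CP
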