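import Pool.Agent.Helper98.CP.Asm2
import Pool.Agent.Helper72.CP.OA4b
import Pool.Agent.Helper25.CP.OA5c
import Pool.Agent.Helper35.CP.OA5b

set_option autoImplicit false

namespace Pool.Agent.CP

open Stage Pool.Agent.CQ

section

variable {k n : ℕ} (S : Stage (FreeGroup (Fin k)) (Fin n → ℚ))
variable {α : Type*} [Primcodable α]

/-- word version of `Gen` together with all the conditions of `Conf` except `kind` -/
def CB (x : Fin n → ℚ) (Λ b h c : List (Wd k)) : Prop :=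
  S.Gen x (Λ.map gw) ∧ (∀ w ∈ b, gw w ∈ S.C x) ∧ (∀ w ∈ h, gw w ∈ S.C x) ∧
  (∀ w ∈ c, gw w ∈ S.C x) ∧ (∀ w ∈ c, gw w ∈ S.cl (h.map gw)) ∧ (∃ w ∈ c, w = []) ∧
  (∀ w ∈ Λ, gw w ∈ S.cl ((b ++ h).map gw)) ∧
  (∀ w ∈ c, ∀ u ∈ h, ∃ w' ∈ c, S.NB x (S.d x (gw u * gw w) - S.d x (gw w'))) ∧
  (∀ w ∈ c, ∀ u ∈ h, ∃ w' ∈ c, S.NB x (S.d x ((gw u)⁻¹ * gw w) - S.d x (gw w')))

theorem re_CB (hE : S.Eff)
    (hGen : REPred (fun p : (Fin n → ℚ) × List (Wd k) => S.Gen p.1 (p.2.map gw)))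
    {x : α → Fin n → ℚ} {Λ b h c : α → List (Wd k)} (hx : Computable x) (hΛ : Computable Λ)
    (hb : Computable b) (hh : Computable h) (hc : Computable c) :
    REPred (fun a => CB S (x a) (Λ a) (b a) (h a) (c a)) := by
  refine re_and ?_ (re_and (re_C_list S hx hb) (re_and (re_C_list S hx hh)
    (re_and (re_C_list S hx hc) (re_and (re_cl_list S hE hh hc) (re_and ?_
    (re_and (re_cl_list S hE (c_append hb hh) hΛ) (re_and (re_orb S hE hx hh hc)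
      (re_orb' S hE hx hh hc))))))))
  · have h1 := re_comp hGen (hx.pair hΛ)
    exact h1
  · exact re_exists_list (R := fun _ w => w = []) (re_eq Computable.snd (Computable.const [])) hc

variable {S}

theorem CB.conf {x : Fin n → ℚ} {Λ b h c : List (Wd k)} (H : CB S x Λ b h c)
    (hk : Kind S x (b.map gw) (h.map gw)) : S.Conf x (b.map gw) (h.map gw) (c.map gw) := by
  obtain ⟨h1, h2, h3, h4, h5, ⟨w0, h6, rfl⟩, h7, h8, h9⟩ := H
  refine ⟨?_, ?_, ?_, ?_, ?_, ?_, ?_, ?_, hk⟩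
  · simpa only [List.forall_mem_map] using h2
  · simpa only [List.forall_mem_map] using h3
  · simpa only [List.forall_mem_map] using h4
  · simpa only [List.forall_mem_map] using h5
  · exact List.mem_map.2 ⟨[], h6, FreeGroup.one_eq_mk.symm⟩
  · refine h1.2.trans (sup_le ?_ le_sup_right)
    rw [Subgroup.closure_le]
    intro g hg
    obtain ⟨w, hw, rfl⟩ := List.mem_map.1 hg
    rw [← List.map_append]
    exact h7 w hw
  · intro g hg a ha
    obtain ⟨w, hw, rfl⟩ := List.mem_map.1 hg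
    obtain ⟨u, hu, rfl⟩ := List.mem_map.1 ha
    obtain ⟨w', hw', h⟩ := h8 w hw u hu
    exact ⟨gw w', List.mem_map.2 ⟨w', hw', rfl⟩, h⟩
  · intro g hg a ha
    obtain ⟨w, hw, rfl⟩ := List.mem_map.1 hg
    obtain ⟨u, hu, rfl⟩ := List.mem_map.1 ha
    obtain ⟨w', hw', h⟩ := h9 w hw u hu
    exact ⟨gw w', List.mem_map.2 ⟨w', hw', rfl⟩, h⟩

theorem map_gw_toWord (l : List (FreeGroup (Fin k))) : (l.map FreeGroup.toWord).map gw = l := by
  rw [List.map_map]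
  conv_rhs => rw [← List.map_id l]
  exact List.map_congr_left (fun g _ => FreeGroup.mk_toWord)

variable (S) in
theorem exists_CB (x : Fin n → ℚ) : ∃ Λ b h c : List (Wd k), CB S x Λ b h c ∧
    Kind S x (b.map gw) (h.map gw) := by
  obtain ⟨b, h, c, hc⟩ := conf_exists S x
  obtain ⟨Λ, hΛ1, hΛ2⟩ := exists_list_cl S (S.C x)
  have key : ∀ (l : List (FreeGroup (Fin k))) (P : FreeGroup (Fin k) → Prop),
      (∀ g ∈ l, P g) → ∀ w ∈ l.map FreeGroup.toWord, P (gw w) := by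
    intro l P h w hw
    obtain ⟨g, hg, rfl⟩ := List.mem_map.1 hw
    rw [show gw g.toWord = g from FreeGroup.mk_toWord]
    exact h g hg
  refine ⟨Λ.map FreeGroup.toWord, b.map FreeGroup.toWord, h.map FreeGroup.toWord,
    c.map FreeGroup.toWord, ⟨?_, ?_, ?_, ?_, ?_, ?_, ?_, ?_, ?_⟩, ?_⟩
  · rw [map_gw_toWord]; exact ⟨hΛ1, hΛ2⟩
  · exact key b (fun g => g ∈ S.C x) hc.b_mem
  · exact key h (fun g => g ∈ S.C x) hc.h_mem
  · exact key c (fun g => g ∈ S.C x) hc.c_mem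
  · rw [map_gw_toWord]; exact key c (fun g => g ∈ S.cl h) hc.c_cl
  · exact ⟨[], List.mem_map.2 ⟨1, hc.one_mem, FreeGroup.toWord_one⟩, rfl⟩
  · rw [← List.map_append, map_gw_toWord]
    exact key Λ (fun g => g ∈ S.cl (b ++ h)) (fun g hg => hc.gens (hΛ1 g hg))
  · intro w hw u hu
    obtain ⟨g, hg, rfl⟩ := List.mem_map.1 hw
    obtain ⟨a, ha, rfl⟩ := List.mem_map.1 hu
    obtain ⟨g', hg', h'⟩ := hc.orb g hg a ha
    refine ⟨g'.toWord, List.mem_map.2 ⟨g', hg', rfl⟩, ?_⟩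
    rwa [show gw g.toWord = g from FreeGroup.mk_toWord,
      show gw a.toWord = a from FreeGroup.mk_toWord,
      show gw g'.toWord = g' from FreeGroup.mk_toWord]
  · intro w hw u hu
    obtain ⟨g, hg, rfl⟩ := List.mem_map.1 hw
    obtain ⟨a, ha, rfl⟩ := List.mem_map.1 hu
    obtain ⟨g', hg', h'⟩ := hc.orb' g hg a ha
    refine ⟨g'.toWord, List.mem_map.2 ⟨g', hg', rfl⟩, ?_⟩
    rwa [show gw g.toWord = g from FreeGroup.mk_toWord,
      show gw a.toWord = a from FreeGroup.mk_toWord,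
      show gw g'.toWord = g' from FreeGroup.mk_toWord]
  · rw [map_gw_toWord, map_gw_toWord]; exact hc.kind

theorem CB.htriv {x : Fin n → ℚ} {Λ b h c : List (Wd k)} (H : CB S x Λ b h c)
    (h1 : ∀ w ∈ Λ, S.Triv (gw w)) : ∀ g ∈ S.C x, S.Triv g := by
  have h2 : S.C x ≤ S.trivSub := by
    refine H.1.2.trans (sup_le ?_ S.N_le_trivSub)
    rw [Subgroup.closure_le]
    intro g hg
    obtain ⟨w, hw, rfl⟩ := List.mem_map.1 hg
    exact h1 w hw
  exact fun g hg => h2 hg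

theorem CB.kind_T {x : Fin n → ℚ} {Λ b h c : List (Wd k)} (H : CB S x Λ b h c)
    (hk : KT S x Λ b h) : Kind S x (b.map gw) (h.map gw) :=
  Kind.T (H.htriv hk.1) (by simpa only [List.forall_mem_map] using hk.2.1) hk.2.2

theorem CB.kind_K {x : Fin n → ℚ} {Λ b h c : List (Wd k)} (_H : CB S x Λ b h c) {g₀ : Wd k}
    (hk : KK S x b h g₀) : Kind S x (b.map gw) (h.map gw) :=
  Kind.K (gw g₀) hk.1 hk.2.1 hk.2.2.1 (by simpa only [List.forall_mem_map] using hk.2.2.2.1)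
    hk.2.2.2.2

theorem CB.kind_iff {x : Fin n → ℚ} {Λ b h c : List (Wd k)} (H : CB S x Λ b h c) :
    Kind S x (b.map gw) (h.map gw) ↔ b = [] ∨ KT S x Λ b h ∨ ∃ g₀ : Wd k, KK S x b h g₀ := by
  constructor
  · rintro (hb | ⟨htriv, hh, hb⟩ | ⟨g₀, hg₀, hn, hd, hh, hb⟩)
    · exact Or.inl (by simpa using hb)
    · refine Or.inr (Or.inl ⟨?_, ?_, hb⟩)
      · intro w hw
        exact htriv _ (H.1.1 _ (List.mem_map.2 ⟨w, hw, rfl⟩))
      · intro w hw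
        exact hh _ (List.mem_map.2 ⟨w, hw, rfl⟩)
    · refine Or.inr (Or.inr ⟨g₀.toWord, ?_⟩)
      unfold KK
      rw [show gw g₀.toWord = g₀ from FreeGroup.mk_toWord]
      exact ⟨hg₀, hn, hd, fun w hw => hh _ (List.mem_map.2 ⟨w, hw, rfl⟩), hb⟩
  · rintro (rfl | h | ⟨g₀, h⟩)
    · exact Kind.Z rfl
    · exact H.kind_T h
    · exact H.kind_K h

/-- certificates for the nonexistence of a transporter at one level -/
theorem not_T_iff_cert {x z : Fin n → ℚ} (hz : z ∈ S.U) : ¬ S.T x z ↔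
    ∃ Λ b h c : List (Wd k), CB S x Λ b h c ∧
      (S.NTZ x z (b.map gw) (c.map gw) ∨
       (KT S x Λ b h ∧ S.NTT x z (b.map gw) (c.map gw)) ∨
       (∃ g₀ : Wd k, KK S x b h g₀ ∧ NK S x z Λ b c g₀)) := by
  constructor
  · intro hT
    obtain ⟨Λ, b, h, c, H, hk⟩ := exists_CB S x
    refine ⟨Λ, b, h, c, H, ?_⟩
    have hconf := H.conf hk
    rcases H.kind_iff.1 hk with rfl | hk' | ⟨g₀, hk'⟩
    · exact Or.inl ((not_T_iff_Z hconf hz rfl).1 hT)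
    · refine Or.inr (Or.inl ⟨hk', ?_⟩)
      exact (not_T_iff_T hconf hz (H.htriv hk'.1)
        (by simpa only [List.forall_mem_map] using hk'.2.1) hk'.2.2).1 hT
    · refine Or.inr (Or.inr ⟨g₀, hk', ?_⟩)
      rw [← nk_iff S H.1 hz hk'.1]
      exact (not_T_iff_K hconf hz hk'.1 hk'.2.1 hk'.2.2.1
        (by simpa only [List.forall_mem_map] using hk'.2.2.2.1) hk'.2.2.2.2).1 hT
  · rintro ⟨Λ, b, h, c, H, (h1 | ⟨hk', h1⟩ | ⟨g₀, hk', h1⟩)⟩
    · have hk : Kind S x (b.map gw) (h.map gw) := Kind.Z h1.1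
      exact (not_T_iff_Z (H.conf hk) hz h1.1).2 h1
    · exact (not_T_iff_T (H.conf (H.kind_T hk')) hz (H.htriv hk'.1)
        (by simpa only [List.forall_mem_map] using hk'.2.1) hk'.2.2).2 h1
    · rw [← nk_iff S H.1 hz hk'.1] at h1
      exact (not_T_iff_K (H.conf (H.kind_K hk')) hz hk'.1 hk'.2.1 hk'.2.2.1
        (by simpa only [List.forall_mem_map] using hk'.2.2.2.1) hk'.2.2.2.2).2 h1

theorem re_notT (hE : S.Eff)
    (hGen : REPred (fun p : (Fin n → ℚ) × List (Wd k) => S.Gen p.1 (p.2.map gw))) :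
    REPred (fun p : (Fin n → ℚ) × (Fin n → ℚ) => p.2 ∈ S.U ∧ ¬ S.T p.1 p.2) := by
  have h0 : REPred (fun q : ((Fin n → ℚ) × (Fin n → ℚ)) × (List (Wd k) × List (Wd k) ×
      List (Wd k) × List (Wd k)) => CB S q.1.1 q.2.1 q.2.2.1 q.2.2.2.1 q.2.2.2.2 ∧
      (S.NTZ q.1.1 q.1.2 (q.2.2.1.map gw) (q.2.2.2.2.map gw) ∨
       (KT S q.1.1 q.2.1 q.2.2.1 q.2.2.2.1 ∧
        S.NTT q.1.1 q.1.2 (q.2.2.1.map gw) (q.2.2.2.2.map gw)) ∨
       (∃ g₀ : Wd k, KK S q.1.1 q.2.2.1 q.2.2.2.1 g₀ ∧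
        NK S q.1.1 q.1.2 q.2.1 q.2.2.1 q.2.2.2.2 g₀))) := by
    have hx : Computable (fun q : ((Fin n → ℚ) × (Fin n → ℚ)) × (List (Wd k) × List (Wd k) ×
      List (Wd k) × List (Wd k)) => q.1.1) := Computable.fst.comp Computable.fst
    have hz : Computable (fun q : ((Fin n → ℚ) × (Fin n → ℚ)) × (List (Wd k) × List (Wd k) ×
      List (Wd k) × List (Wd k)) => q.1.2) := Computable.snd.comp Computable.fst
    have hΛ : Computable (fun q : ((Fin n → ℚ) × (Fin n → ℚ)) × (List (Wd k) × List (Wd k) ×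
      List (Wd k) × List (Wd k)) => q.2.1) := Computable.fst.comp Computable.snd
    have hb : Computable (fun q : ((Fin n → ℚ) × (Fin n → ℚ)) × (List (Wd k) × List (Wd k) ×
      List (Wd k) × List (Wd k)) => q.2.2.1) :=
      Computable.fst.comp (Computable.snd.comp Computable.snd)
    have hh : Computable (fun q : ((Fin n → ℚ) × (Fin n → ℚ)) × (List (Wd k) × List (Wd k) ×
      List (Wd k) × List (Wd k)) => q.2.2.2.1) :=
      Computable.fst.comp (Computable.snd.comp (Computable.snd.comp Computable.snd))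
    have hc : Computable (fun q : ((Fin n → ℚ) × (Fin n → ℚ)) × (List (Wd k) × List (Wd k) ×
      List (Wd k) × List (Wd k)) => q.2.2.2.2) :=
      Computable.snd.comp (Computable.snd.comp (Computable.snd.comp Computable.snd))
    refine re_and (re_CB S hE hGen hx hΛ hb hh hc) (re_or (re_NTZ S hE hx hz hb hc)
      (re_or (re_and (re_KT S hx hΛ hb hh) (re_NTT S hE hx hz hb hc)) ?_))
    refine re_exists (R := fun (q : ((Fin n → ℚ) × (Fin n → ℚ)) × (List (Wd k) × List (Wd k) ×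
      List (Wd k) × List (Wd k))) (g₀ : Wd k) => KK S q.1.1 q.2.2.1 q.2.2.2.1 g₀ ∧
        NK S q.1.1 q.1.2 q.2.1 q.2.2.1 q.2.2.2.2 g₀) ?_
    exact re_and (re_KK S (hx.comp Computable.fst) (hb.comp Computable.fst)
      (hh.comp Computable.fst) Computable.snd)
      (re_NK S hE (hx.comp Computable.fst) (hz.comp Computable.fst) (hΛ.comp Computable.fst)
        (hb.comp Computable.fst) (hc.comp Computable.fst) Computable.snd)
  have h1 := re_exists (R := fun (p : (Fin n → ℚ) × (Fin n → ℚ)) (q : List (Wd k) × List (Wd k) ×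
      List (Wd k) × List (Wd k)) => CB S p.1 q.1 q.2.1 q.2.2.1 q.2.2.2 ∧
      (S.NTZ p.1 p.2 (q.2.1.map gw) (q.2.2.2.map gw) ∨
       (KT S p.1 q.1 q.2.1 q.2.2.1 ∧
        S.NTT p.1 p.2 (q.2.1.map gw) (q.2.2.2.map gw)) ∨
       (∃ g₀ : Wd k, KK S p.1 q.2.1 q.2.2.1 g₀ ∧
        NK S p.1 p.2 q.1 q.2.1 q.2.2.2 g₀))) h0
  have h2 : REPred (fun p : (Fin n → ℚ) × (Fin n → ℚ) => p.2 ∈ S.U) := by
    have h := re_comp (cp_subspace S.U).to_re
      (Computable.snd : Computable (Prod.snd : (Fin n → ℚ) × (Fin n → ℚ) → _))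
    exact h
  refine (re_and h2 h1).of_eq (fun p => ?_)
  constructor
  · rintro ⟨hz, q, hq⟩
    exact ⟨hz, (not_T_iff_cert hz).2 ⟨q.1, q.2.1, q.2.2.1, q.2.2.2, hq⟩⟩
  · rintro ⟨hz, hT⟩
    obtain ⟨Λ, b, h, c, H⟩ := (not_T_iff_cert hz).1 hT
    exact ⟨hz, (Λ, b, h, c), H⟩

theorem gen'_iff_cert {x : Fin n → ℚ} {Λ' : List (Wd k)} : S.Gen' x (Λ'.map gw) ↔
    (∀ w ∈ Λ', gw w ∈ S.C' x) ∧ ∃ Λ b h c : List (Wd k), CB S x Λ b h c ∧
      (b = [] ∨ KT S x Λ b h ∨ ∃ g₀ : Wd k, KK S x b h g₀) ∧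
      (∀ w ∈ c, ∀ u ∈ h, ∃ w' ∈ c, S.NB x (S.d x (gw u * gw w) - S.d x (gw w')) ∧
        (gw w')⁻¹ * (gw u * gw w) ∈ S.cl (Λ'.map gw)) ∧
      (∀ w ∈ c, ∀ u ∈ h, ∃ w' ∈ c, S.NB x (S.d x ((gw u)⁻¹ * gw w) - S.d x (gw w')) ∧
        (gw w')⁻¹ * ((gw u)⁻¹ * gw w) ∈ S.cl (Λ'.map gw)) ∧
      (∀ w ∈ c, ¬ S.NB x (S.d x (gw w)) ∨ gw w ∈ S.cl (Λ'.map gw)) := by
  constructor
  · intro hG
    obtain ⟨Λ, b, h, c, H, hk⟩ := exists_CB S x
    have hconf := H.conf hk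
    obtain ⟨h1, h2, h3⟩ := conf_gen_conv hconf hG
    refine ⟨fun w hw => hG.1 _ (List.mem_map.2 ⟨w, hw, rfl⟩), Λ, b, h, c, H, H.kind_iff.1 hk,
      ?_, ?_, ?_⟩
    · intro w hw u hu
      obtain ⟨g', hg', h⟩ := h1 (gw w) (List.mem_map.2 ⟨w, hw, rfl⟩) (gw u)
        (List.mem_map.2 ⟨u, hu, rfl⟩)
      obtain ⟨w', hw', rfl⟩ := List.mem_map.1 hg'
      exact ⟨w', hw', h⟩
    · intro w hw u hu
      obtain ⟨g', hg', h⟩ := h2 (gw w) (List.mem_map.2 ⟨w, hw, rfl⟩) (gw u)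
        (List.mem_map.2 ⟨u, hu, rfl⟩)
      obtain ⟨w', hw', rfl⟩ := List.mem_map.1 hg'
      exact ⟨w', hw', h⟩
    · intro w hw
      exact h3 (gw w) (List.mem_map.2 ⟨w, hw, rfl⟩)
  · rintro ⟨h0, Λ, b, h, c, H, hk, h1, h2, h3⟩
    refine conf_gen (H.conf (H.kind_iff.2 hk)) ?_ ?_ ?_ ?_
    · simpa only [List.forall_mem_map] using h0
    · intro g hg a ha
      obtain ⟨w, hw, rfl⟩ := List.mem_map.1 hg
      obtain ⟨u, hu, rfl⟩ := List.mem_map.1 ha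
      obtain ⟨w', hw', h⟩ := h1 w hw u hu
      exact ⟨gw w', List.mem_map.2 ⟨w', hw', rfl⟩, h⟩
    · intro g hg a ha
      obtain ⟨w, hw, rfl⟩ := List.mem_map.1 hg
      obtain ⟨u, hu, rfl⟩ := List.mem_map.1 ha
      obtain ⟨w', hw', h⟩ := h2 w hw u hu
      exact ⟨gw w', List.mem_map.2 ⟨w', hw', rfl⟩, h⟩
    · intro g hg
      obtain ⟨w, hw, rfl⟩ := List.mem_map.1 hg
      exact h3 w hw

theorem re_Gen' (hE : S.Eff)
    (hGen : REPred (fun p : (Fin n → ℚ) × List (Wd k) => S.Gen p.1 (p.2.map gw))) :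
    REPred (fun p : (Fin n → ℚ) × List (Wd k) => S.Gen' p.1 (p.2.map gw)) := by
  have h0 : REPred (fun q : ((Fin n → ℚ) × List (Wd k)) × (List (Wd k) × List (Wd k) ×
      List (Wd k) × List (Wd k)) => CB S q.1.1 q.2.1 q.2.2.1 q.2.2.2.1 q.2.2.2.2 ∧
      (q.2.2.1 = [] ∨ KT S q.1.1 q.2.1 q.2.2.1 q.2.2.2.1 ∨
        ∃ g₀ : Wd k, KK S q.1.1 q.2.2.1 q.2.2.2.1 g₀) ∧
      (∀ w ∈ q.2.2.2.2, ∀ u ∈ q.2.2.2.1, ∃ w' ∈ q.2.2.2.2,
        S.NB q.1.1 (S.d q.1.1 (gw u * gw w) - S.d q.1.1 (gw w')) ∧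
        (gw w')⁻¹ * (gw u * gw w) ∈ S.cl (q.1.2.map gw)) ∧
      (∀ w ∈ q.2.2.2.2, ∀ u ∈ q.2.2.2.1, ∃ w' ∈ q.2.2.2.2,
        S.NB q.1.1 (S.d q.1.1 ((gw u)⁻¹ * gw w) - S.d q.1.1 (gw w')) ∧
        (gw w')⁻¹ * ((gw u)⁻¹ * gw w) ∈ S.cl (q.1.2.map gw)) ∧
      (∀ w ∈ q.2.2.2.2, ¬ S.NB q.1.1 (S.d q.1.1 (gw w)) ∨ gw w ∈ S.cl (q.1.2.map gw))) := by
    have hx : Computable (fun q : ((Fin n → ℚ) × List (Wd k)) × (List (Wd k) × List (Wd k) ×
      List (Wd k) × List (Wd k)) => q.1.1) := Computable.fst.comp Computable.fst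
    have hz : Computable (fun q : ((Fin n → ℚ) × List (Wd k)) × (List (Wd k) × List (Wd k) ×
      List (Wd k) × List (Wd k)) => q.1.2) := Computable.snd.comp Computable.fst
    have hΛ : Computable (fun q : ((Fin n → ℚ) × List (Wd k)) × (List (Wd k) × List (Wd k) ×
      List (Wd k) × List (Wd k)) => q.2.1) := Computable.fst.comp Computable.snd
    have hb : Computable (fun q : ((Fin n → ℚ) × List (Wd k)) × (List (Wd k) × List (Wd k) ×
      List (Wd k) × List (Wd k)) => q.2.2.1) :=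
      Computable.fst.comp (Computable.snd.comp Computable.snd)
    have hh : Computable (fun q : ((Fin n → ℚ) × List (Wd k)) × (List (Wd k) × List (Wd k) ×
      List (Wd k) × List (Wd k)) => q.2.2.2.1) :=
      Computable.fst.comp (Computable.snd.comp (Computable.snd.comp Computable.snd))
    have hc : Computable (fun q : ((Fin n → ℚ) × List (Wd k)) × (List (Wd k) × List (Wd k) ×
      List (Wd k) × List (Wd k)) => q.2.2.2.2) :=
      Computable.snd.comp (Computable.snd.comp (Computable.snd.comp Computable.snd))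
    refine re_and (re_CB S hE hGen hx hΛ hb hh hc) (re_and (re_or
      (re_eq hb (Computable.const [])) (re_or (re_KT S hx hΛ hb hh) ?_)) (re_and
      (re_sch S hE hx hz hh hc) (re_and (re_sch' S hE hx hz hh hc) ?_)))
    · exact re_exists (R := fun (q : ((Fin n → ℚ) × List (Wd k)) × (List (Wd k) × List (Wd k) ×
        List (Wd k) × List (Wd k))) (g₀ : Wd k) => KK S q.1.1 q.2.2.1 q.2.2.2.1 g₀)
        (re_KK S (hx.comp Computable.fst) (hb.comp Computable.fst)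
          (hh.comp Computable.fst) Computable.snd)
    · refine re_forall_list (R := fun (q : ((Fin n → ℚ) × List (Wd k)) × (List (Wd k) ×
        List (Wd k) × List (Wd k) × List (Wd k))) (w : Wd k) =>
        ¬ S.NB q.1.1 (S.d q.1.1 (gw w)) ∨ gw w ∈ S.cl (q.1.2.map gw)) ?_ hc
      exact re_or (re_not_NB S hE (hx.comp Computable.fst)
        (c_d S Computable.snd (hx.comp Computable.fst)))
        (re_clw S hE (hz.comp Computable.fst) Computable.snd)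
  have h1 := re_exists (R := fun (p : (Fin n → ℚ) × List (Wd k)) (q : List (Wd k) × List (Wd k) ×
      List (Wd k) × List (Wd k)) => CB S p.1 q.1 q.2.1 q.2.2.1 q.2.2.2 ∧
      (q.2.1 = [] ∨ KT S p.1 q.1 q.2.1 q.2.2.1 ∨
        ∃ g₀ : Wd k, KK S p.1 q.2.1 q.2.2.1 g₀) ∧
      (∀ w ∈ q.2.2.2, ∀ u ∈ q.2.2.1, ∃ w' ∈ q.2.2.2,
        S.NB p.1 (S.d p.1 (gw u * gw w) - S.d p.1 (gw w')) ∧
        (gw w')⁻¹ * (gw u * gw w) ∈ S.cl (p.2.map gw)) ∧
      (∀ w ∈ q.2.2.2, ∀ u ∈ q.2.2.1, ∃ w' ∈ q.2.2.2,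
        S.NB p.1 (S.d p.1 ((gw u)⁻¹ * gw w) - S.d p.1 (gw w')) ∧
        (gw w')⁻¹ * ((gw u)⁻¹ * gw w) ∈ S.cl (p.2.map gw)) ∧
      (∀ w ∈ q.2.2.2, ¬ S.NB p.1 (S.d p.1 (gw w)) ∨ gw w ∈ S.cl (p.2.map gw))) h0
  have h2 : REPred (fun p : (Fin n → ℚ) × List (Wd k) => ∀ w ∈ p.2, gw w ∈ S.C' p.1) :=
    re_C'_list S Computable.fst Computable.snd
  refine (re_and h2 h1).of_eq (fun p => ?_)
  rw [gen'_iff_cert]
  constructor
  · rintro ⟨hz, q, hq⟩
    exact ⟨hz, q.1, q.2.1, q.2.2.1, q.2.2.2, hq⟩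
  · rintro ⟨hz, Λ, b, h, c, H⟩
    exact ⟨hz, (Λ, b, h, c), H⟩

end

end Pool.Agent.CP
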