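import Pool.Agent.Helper98.CP.Basic


set_option autoImplicit false

namespace Pool.Agent.CP

open Finset

/-- truncated exponential -/
noncomputable def EE {V : Type*} [AddCommGroup V] [Module ℚ V] (c : ℕ) (l : V →ₗ[ℚ] V) :
    V →ₗ[ℚ] V := ∑ k ∈ range c, ((k.factorial : ℚ)⁻¹) • l ^ k

/-- The data from which all stages are built: `G` acts through `ρ`, `N ⊇ [G,G]` acts as `exp L`
(exactly), and `W` is a `G`-invariant flag with `L (W i) ≤ W (i+1)`. -/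
structure Base (G V : Type*) [Group G] [AddCommGroup V] [Module ℚ V] where
  ρ : G →* (V →ₗ[ℚ] V)
  N : Subgroup G
  L : AddSubgroup (V →ₗ[ℚ] V)
  c : ℕ
  W : ℕ → Submodule ℚ V
  comm : ∀ a b : G, a * b * a⁻¹ * b⁻¹ ∈ N
  Linv : ∀ g : G, ∀ l ∈ L, (ρ g) ∘ₗ l ∘ₗ (ρ g⁻¹) ∈ L
  W0 : W 0 = ⊤
  Wc : W c = ⊥
  anti : ∀ i, W (i + 1) ≤ W i
  inv : ∀ (g : G) (i : ℕ), ∀ v ∈ W i, ρ g v ∈ W i
  LW : ∀ l ∈ L, ∀ i, ∀ v ∈ W i, l v ∈ W (i + 1)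
  expN : ∀ g : G, g ∈ N ↔ ∃ l ∈ L, ρ g = EE c l
  Nexp : ∀ l ∈ L, ∃ g ∈ N, ρ g = EE c l

/-- `U ⊇ U'` is an irreducible step refining the flag -/
structure Base.IsStep {G V : Type*} [Group G] [AddCommGroup V] [Module ℚ V] (B : Base G V)
    (U U' : Submodule ℚ V) : Prop where
  le : U' ≤ U
  invU : ∀ g : G, ∀ v ∈ U, B.ρ g v ∈ U
  invU' : ∀ g : G, ∀ v ∈ U', B.ρ g v ∈ U'
  idx : ∃ i, U ≤ B.W i ∧ B.W (i + 1) ≤ U'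
  irr : ∀ X : Submodule ℚ V, (∀ g : G, ∀ v ∈ X, B.ρ g v ∈ X) → U' ≤ X → X ≤ U → X = U' ∨ X = U

end Pool.Agent.CP
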