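import Pool.Agent.Helper98.CP.Asm3
import Pool.Agent.Helper98.CP.BDefs
import Pool.Agent.Helper71.CP.OA9
import Pool.Agent.Helper72.CP.OA7
import Pool.Agent.Helper72.CP.OA8
import Pool.Agent.Helper39.CJ.NP

set_option autoImplicit false

namespace Pool.Agent.CP

open Stage Pool.Agent.CQ

section

variable {k n : ℕ}

theorem Base.exists_stage {G V : Type*} [Group G] [Group.FG G] [AddCommGroup V] [Module ℚ V]
    {B : Base G V} {U U' : Submodule ℚ V} (h : B.IsStep U U') :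
    ∃ S : Stage G V, S.ρ = B.ρ ∧ S.N = B.N ∧ S.L = B.L ∧ S.U = U ∧ S.U' = U' :=
  Base.exists_stage_of (fun H hH => kappa_exists H hH) h

theorem EE_toLin' (c : ℕ) (A : Matrix (Fin n) (Fin n) ℚ) :
    EE c (Matrix.toLin' A) = Matrix.toLin' (NP.E c A) := by
  unfold EE NP.E
  rw [map_sum]
  refine Finset.sum_congr rfl (fun j _ => ?_)
  rw [map_smul, Matrix.toLin'_pow]

/-- generators modulo `N` of the stabiliser of `x` modulo `U` -/
def Base.GenU (B : Base (FreeGroup (Fin k)) (Fin n → ℚ)) (U : Submodule ℚ (Fin n → ℚ))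
    (x : Fin n → ℚ) (Λ : List (FreeGroup (Fin k))) : Prop :=
  (∀ g ∈ Λ, B.ρ g x - x ∈ U) ∧
    ∀ g, B.ρ g x - x ∈ U → g ∈ Subgroup.closure {g | g ∈ Λ} ⊔ B.N

/-- the inductive statement -/
def Base.PP (B : Base (FreeGroup (Fin k)) (Fin n → ℚ)) (U : Submodule ℚ (Fin n → ℚ)) : Prop :=
  REPred (fun p : (Fin n → ℚ) × List (Wd k) => B.GenU U p.1 (p.2.map gw)) ∧
  REPred (fun p : (Fin n → ℚ) × (Fin n → ℚ) => ¬ ∃ g, B.ρ g p.1 - p.2 ∈ U)

theorem Base.eff {B : Base (FreeGroup (Fin k)) (Fin n → ℚ)}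
    (hL : REPred (fun A : Matrix (Fin n) (Fin n) ℚ => Matrix.toLin' A ∈ B.L))
    (hden : ∃ s : ℕ, 0 < s ∧ ∀ l ∈ B.L, ∃ j : ℕ, ∀ a b, ∃ z : ℤ,
      (s : ℚ) ^ j * LinearMap.toMatrix' l a b = z)
    {S : Stage (FreeGroup (Fin k)) (Fin n → ℚ)} (hN : S.N = B.N)
    (hLL : S.L = B.L) : S.Eff := by
  refine ⟨?_, ?_, ?_⟩
  · have h1 : REPred (fun w : Wd k => ∃ A : Matrix (Fin n) (Fin n) ℚ, Matrix.toLin' A ∈ B.L ∧
        LinearMap.toMatrix' (B.ρ (gw w)) = NP.E B.c A) := by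
      refine re_exists (R := fun (w : Wd k) (A : Matrix (Fin n) (Fin n) ℚ) =>
        Matrix.toLin' A ∈ B.L ∧ LinearMap.toMatrix' (B.ρ (gw w)) = NP.E B.c A) ?_
      refine re_and (re_comp hL Computable.snd) (re_eq ((c_mat B.ρ).comp Computable.fst) ?_)
      exact NP.c_E Computable.snd _
    refine h1.of_eq (fun w => ?_)
    rw [hN, B.expN]
    constructor
    · rintro ⟨A, hA, h⟩
      refine ⟨_, hA, ?_⟩
      rw [EE_toLin', ← h, Matrix.toLin'_toMatrix']
    · rintro ⟨l, hl, h⟩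
      refine ⟨LinearMap.toMatrix' l, by rwa [Matrix.toLin'_toMatrix'], ?_⟩
      rw [h]
      conv_lhs => rw [← Matrix.toLin'_toMatrix' l, EE_toLin', LinearMap.toMatrix'_toLin']
  · rw [hLL]; exact hL
  · rw [hLL]; exact hden

theorem Base.isStep_top (B : Base (FreeGroup (Fin k)) (Fin n → ℚ)) : B.IsStep ⊤ ⊤ where
  le := le_refl _
  invU := fun _ _ _ => trivial
  invU' := fun _ _ _ => trivial
  idx := ⟨0, by rw [B.W0], le_top⟩
  irr := fun _ _ h _ => Or.inl (top_le_iff.1 h)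

theorem Base.PP_top {B : Base (FreeGroup (Fin k)) (Fin n → ℚ)}
    (hL : REPred (fun A : Matrix (Fin n) (Fin n) ℚ => Matrix.toLin' A ∈ B.L))
    (hden : ∃ s : ℕ, 0 < s ∧ ∀ l ∈ B.L, ∃ j : ℕ, ∀ a b, ∃ z : ℤ,
      (s : ℚ) ^ j * LinearMap.toMatrix' l a b = z) : B.PP ⊤ := by
  obtain ⟨S, h1, h2, h3, h4, h5⟩ := Base.exists_stage B.isStep_top
  have hE := Base.eff hL hden h2 h3
  refine ⟨?_, ?_⟩
  · have h6 : REPred (fun p : (Fin n → ℚ) × List (Wd k) => ∀ i : Fin k,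
        gw [(i, true)] ∈ S.cl (p.2.map gw)) :=
      re_forall_fintype (fun i => re_clw S hE Computable.snd (Computable.const [(i, true)]))
    refine h6.of_eq (fun p => ?_)
    constructor
    · intro h
      refine ⟨fun _ _ => trivial, fun g _ => ?_⟩
      have h7 : (⊤ : Subgroup (FreeGroup (Fin k))) ≤ S.cl (p.2.map gw) := by
        rw [← FreeGroup.closure_range_of, Subgroup.closure_le]
        rintro _ ⟨i, rfl⟩
        exact h i
      have h8 := h7 (Subgroup.mem_top g)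
      rw [cl, h2] at h8
      exact h8
    · intro h i
      rw [cl, h2]
      exact h.2 _ trivial
  · refine re_false.of_eq (fun p => ?_)
    constructor
    · exact False.elim
    · intro h; exact h ⟨1, trivial⟩

theorem Base.PP_step {B : Base (FreeGroup (Fin k)) (Fin n → ℚ)}
    (hL : REPred (fun A : Matrix (Fin n) (Fin n) ℚ => Matrix.toLin' A ∈ B.L))
    (hden : ∃ s : ℕ, 0 < s ∧ ∀ l ∈ B.L, ∃ j : ℕ, ∀ a b, ∃ z : ℤ,
      (s : ℚ) ^ j * LinearMap.toMatrix' l a b = z) {U U' : Submodule ℚ (Fin n → ℚ)}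
    (hU : B.IsStep U U') (hP : B.PP U) : B.PP U' := by
  obtain ⟨S, h1, h2, h3, h4, h5⟩ := Base.exists_stage hU
  have hE := Base.eff hL hden h2 h3
  have hG : ∀ x Λ, S.Gen x Λ ↔ B.GenU U x Λ := by
    intro x Λ
    unfold Gen Base.GenU
    rw [cl, h2, ← h1, ← h4]
    rfl
  have hG' : ∀ x Λ, S.Gen' x Λ ↔ B.GenU U' x Λ := by
    intro x Λ
    unfold Gen' Base.GenU
    rw [cl, h2, ← h1, ← h5]
    rfl
  have hGen : REPred (fun p : (Fin n → ℚ) × List (Wd k) => S.Gen p.1 (p.2.map gw)) :=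
    hP.1.of_eq (fun p => (hG _ _).symm)
  refine ⟨(re_Gen' hE hGen).of_eq (fun p => hG' _ _), ?_⟩
  have hT := re_notT hE hGen
  have hR : REPred (fun p : (Fin n → ℚ) × (Fin n → ℚ) =>
      (¬ ∃ g, B.ρ g p.1 - p.2 ∈ U) ∨ ∃ w : Wd k, S.ρ (gw w) p.1 - p.2 ∈ S.U ∧
        ((S.ρ (gw (winv w)) p.2 - p.1) ∈ S.U ∧ ¬ S.T p.1 (S.ρ (gw (winv w)) p.2 - p.1))) := by
    refine re_or hP.2 (re_exists (R := fun (p : (Fin n → ℚ) × (Fin n → ℚ)) (w : Wd k) =>
      S.ρ (gw w) p.1 - p.2 ∈ S.U ∧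
        ((S.ρ (gw (winv w)) p.2 - p.1) ∈ S.U ∧ ¬ S.T p.1 (S.ρ (gw (winv w)) p.2 - p.1))) ?_)
    refine re_and ?_ ?_
    · have h6 : Computable (fun q : ((Fin n → ℚ) × (Fin n → ℚ)) × Wd k =>
          S.ρ (gw q.2) q.1.1 - q.1.2) :=
        c_vsub (c_act S.ρ Computable.snd (Computable.fst.comp Computable.fst))
          (Computable.snd.comp Computable.fst)
      have h7 := re_comp (cp_subspace S.U).to_re h6
      exact h7
    · have h6 : Computable (fun q : ((Fin n → ℚ) × (Fin n → ℚ)) × Wd k =>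
          (q.1.1, S.ρ (gw (winv q.2)) q.1.2 - q.1.1)) :=
        (Computable.fst.comp Computable.fst).pair
          (c_vsub (c_act S.ρ (c_winv.comp Computable.snd) (Computable.snd.comp Computable.fst))
          (Computable.fst.comp Computable.fst))
      have h7 := re_comp hT h6
      exact h7
  refine hR.of_eq (fun p => ?_)
  obtain ⟨x, y⟩ := p
  simp only
  constructor
  · rintro (h | ⟨w, hw, hz, hnT⟩)
    · rintro ⟨g, hg⟩
      exact h ⟨g, hU.le hg⟩
    · rintro ⟨g, hg⟩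
      rw [← h1] at hg
      rw [← h5] at hg
      refine hnT ⟨(gw w)⁻¹ * g, ?_, ?_⟩
      · have e : S.d x ((gw w)⁻¹ * g) =
            S.ρ (gw w)⁻¹ (S.ρ g x - y) + (S.ρ (gw (winv w)) y - x) := by
          rw [gw_winv, d, ρ_mul_apply, map_sub]; abel
        rw [mem_C, e]
        exact S.U.add_mem (S.invU _ _ (S.U'_le hg)) hz
      · have e : S.d x ((gw w)⁻¹ * g) - (S.ρ (gw (winv w)) y - x) =
            S.ρ (gw w)⁻¹ (S.ρ g x - y) := by
          rw [gw_winv, d, ρ_mul_apply, map_sub]; abel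
        rw [e]
        exact S.invU' _ _ hg
  · intro h
    by_cases h6 : ∃ g, B.ρ g x - y ∈ U
    · right
      obtain ⟨g, hg⟩ := h6
      obtain ⟨w, rfl⟩ := gw_surj g
      rw [← h1, ← h4] at hg
      have hz : S.ρ (gw (winv w)) y - x ∈ S.U := by
        have e : S.ρ (gw (winv w)) y - x = - S.ρ (gw w)⁻¹ (S.ρ (gw w) x - y) := by
          rw [gw_winv, map_sub, ρ_inv_apply]; abel
        rw [e]
        exact S.U.neg_mem (S.invU _ _ hg)
      refine ⟨w, hg, hz, ?_⟩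
      rintro ⟨g, hg1, hg2⟩
      refine h ⟨gw w * g, ?_⟩
      rw [← h1, ← h5]
      have e : S.ρ (gw w * g) x - y = S.ρ (gw w) (S.d x g - (S.ρ (gw (winv w)) y - x)) := by
        rw [gw_winv, d, ρ_mul_apply, map_sub, map_sub, map_sub, ρ_apply_inv]; abel
      rw [e]
      exact S.invU' _ _ hg2
    · exact Or.inl h6

theorem Base.orbit_computable (B : Base (FreeGroup (Fin k)) (Fin n → ℚ))
    (hL : REPred (fun A : Matrix (Fin n) (Fin n) ℚ => Matrix.toLin' A ∈ B.L))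
    (hden : ∃ s : ℕ, 0 < s ∧ ∀ l ∈ B.L, ∃ j : ℕ, ∀ a b, ∃ z : ℤ,
      (s : ℚ) ^ j * LinearMap.toMatrix' l a b = z) :
    ComputablePred (fun p : (Fin n → ℚ) × (Fin n → ℚ) => ∃ g, B.ρ g p.1 = p.2) := by
  have key : ∀ U, Relation.ReflTransGen B.IsStep ⊤ U → B.PP U := by
    intro U h
    induction h with
    | refl => exact Base.PP_top hL hden
    | tail _ h ih => exact Base.PP_step hL hden h ih
  have hP : B.PP ⊥ := key _ (refine_flag B)
  refine computable_of_re ?_ ?_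
  · have h1 : REPred (fun p : (Fin n → ℚ) × (Fin n → ℚ) => ∃ w : Wd k, B.ρ (gw w) p.1 = p.2) := by
      refine re_exists (R := fun (p : (Fin n → ℚ) × (Fin n → ℚ)) (w : Wd k) =>
        B.ρ (gw w) p.1 = p.2) ?_
      exact re_eq (c_act B.ρ Computable.snd (Computable.fst.comp Computable.fst))
        (Computable.snd.comp Computable.fst)
    refine h1.of_eq (fun p => ?_)
    constructor
    · rintro ⟨w, hw⟩; exact ⟨gw w, hw⟩
    · rintro ⟨g, hg⟩
      obtain ⟨w, rfl⟩ := gw_surj g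
      exact ⟨w, hg⟩
  · refine hP.2.of_eq (fun p => ?_)
    simp only [Submodule.mem_bot, sub_eq_zero]

end

end Pool.Agent.CP
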