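import Pool.Agent.Helper98.CP.Defs

set_option autoImplicit false

namespace Pool.Agent.CP

namespace Stage

variable {G V : Type*} [Group G] [AddCommGroup V] [Module ℚ V] (S : Stage G V)

theorem ρ_mul_apply (a b : G) (v : V) : S.ρ (a * b) v = S.ρ a (S.ρ b v) := by
  rw [map_mul]; rfl

theorem ρ_inv_apply (a : G) (v : V) : S.ρ a⁻¹ (S.ρ a v) = v := by
  rw [← ρ_mul_apply]; simp

theorem ρ_apply_inv (a : G) (v : V) : S.ρ a (S.ρ a⁻¹ v) = v := by
  rw [← ρ_mul_apply]; simp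

theorem d_one (x : V) : S.d x 1 = 0 := by simp [d]

theorem d_mul (x : V) (a b : G) : S.d x (a * b) = S.ρ a (S.d x b) + S.d x a := by
  simp only [d, ρ_mul_apply, map_sub]; abel

theorem d_inv (x : V) (a : G) : S.d x a⁻¹ = - S.ρ a⁻¹ (S.d x a) := by
  simp only [d, map_sub, ρ_inv_apply]; abel

theorem mem_C {x : V} {g : G} : g ∈ S.C x ↔ S.d x g ∈ S.U := Iff.rfl

theorem mem_C' {x : V} {g : G} : g ∈ S.C' x ↔ S.d x g ∈ S.U' := Iff.rfl

theorem C'_le (x : V) : S.C' x ≤ S.C x := fun _ h => S.U'_le h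

instance N_normal : S.N.Normal := ⟨fun n hn g => by
  have := S.N.mul_mem (S.comm g n) hn
  simpa [mul_assoc] using this⟩

theorem mul_comm_mod (a b : G) : ∃ ν ∈ S.N, a * b = ν * (b * a) :=
  ⟨a * b * a⁻¹ * b⁻¹, S.comm a b, by group⟩

theorem triv_of_mem_N {ν : G} (hν : ν ∈ S.N) : S.Triv ν := by
  intro v hv
  obtain ⟨l, hl, h⟩ := S.exp1 ν hν
  have h1 := S.LU l hl v hv
  have h2 := (h v).2 (S.U'_le h1)
  have := S.U'.add_mem h2 h1
  simpa using this

theorem Triv.mul {a b : G} (ha : S.Triv a) (hb : S.Triv b) : S.Triv (a * b) := by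
  intro v hv
  have h1 := S.invU' a _ (hb v hv)
  have h2 := ha v hv
  have := S.U'.add_mem h1 h2
  simpa [ρ_mul_apply, map_sub] using this

theorem Triv.inv {a : G} (ha : S.Triv a) : S.Triv a⁻¹ := by
  intro v hv
  have h1 := S.invU' a⁻¹ _ (ha v hv)
  rw [map_sub, ρ_inv_apply] at h1
  have := S.U'.neg_mem h1
  simpa using this

theorem triv_one : S.Triv 1 := by intro v _; simp

/-- the subgroup of elements acting trivially on `U/U'` -/
def trivSub : Subgroup G where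
  carrier := {g | S.Triv g}
  one_mem' := S.triv_one
  mul_mem' := fun ha hb => Triv.mul S ha hb
  inv_mem' := fun ha => Triv.inv S ha

theorem N_le_trivSub : S.N ≤ S.trivSub := fun _ h => S.triv_of_mem_N h

/-! ### the predicates `NB`, `NQ` -/

variable {S}

theorem NB.of_mem {x z : V} (h : z ∈ S.U') : S.NB x z := ⟨0, S.L.zero_mem, by simpa using h⟩

theorem NB.zero {x : V} : S.NB x 0 := NB.of_mem S.U'.zero_mem

theorem NB.add {x z w : V} (h1 : S.NB x z) (h2 : S.NB x w) : S.NB x (z + w) := by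
  obtain ⟨l, hl, h⟩ := h1
  obtain ⟨l', hl', h'⟩ := h2
  refine ⟨l + l', S.L.add_mem hl hl', ?_⟩
  have := S.U'.add_mem h h'
  have e : z + w - (l + l') x = z - l x + (w - l' x) := by
    rw [LinearMap.add_apply]; abel
  rwa [e]

theorem NB.neg {x z : V} (h1 : S.NB x z) : S.NB x (-z) := by
  obtain ⟨l, hl, h⟩ := h1
  refine ⟨-l, S.L.neg_mem hl, ?_⟩
  have := S.U'.neg_mem h
  have e : -z - (-l) x = -(z - l x) := by
    rw [LinearMap.neg_apply]; abel
  rwa [e]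

theorem NB.sub {x z w : V} (h1 : S.NB x z) (h2 : S.NB x w) : S.NB x (z - w) := by
  rw [sub_eq_add_neg]; exact h1.add h2.neg

theorem NB.swap {x z w : V} (h : S.NB x (z - w)) : S.NB x (w - z) := by
  have := h.neg; rwa [neg_sub] at this

theorem NB.trans {x z w y : V} (h : S.NB x (z - w)) (h' : S.NB x (w - y)) : S.NB x (z - y) := by
  have := h.add h'; rwa [sub_add_sub_cancel] at this

theorem NB.zsmul {x z : V} (h : S.NB x z) (n : ℤ) : S.NB x (n • z) := by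
  obtain ⟨l, hl, h⟩ := h
  refine ⟨n • l, S.L.zsmul_mem hl n, ?_⟩
  have := S.U'.smul_of_tower_mem n h
  have e : n • z - (n • l) x = n • (z - l x) := by
    rw [LinearMap.smul_apply, smul_sub]
  rwa [e]

theorem NB.NQ {x z : V} (h : S.NB x z) : S.NQ x z := by
  obtain ⟨l, hl, h⟩ := h
  exact ⟨l, Submodule.subset_span hl, h⟩

theorem NQ.zero {x : V} : S.NQ x 0 := NB.zero.NQ

theorem NQ.of_mem {x z : V} (h : z ∈ S.U') : S.NQ x z := (NB.of_mem h).NQ

theorem NQ.add {x z w : V} (h1 : S.NQ x z) (h2 : S.NQ x w) : S.NQ x (z + w) := by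
  obtain ⟨l, hl, h⟩ := h1
  obtain ⟨l', hl', h'⟩ := h2
  refine ⟨l + l', Submodule.add_mem _ hl hl', ?_⟩
  have := S.U'.add_mem h h'
  have e : z + w - (l + l') x = z - l x + (w - l' x) := by
    rw [LinearMap.add_apply]; abel
  rwa [e]

theorem NQ.smul {x z : V} (h1 : S.NQ x z) (q : ℚ) : S.NQ x (q • z) := by
  obtain ⟨l, hl, h⟩ := h1
  refine ⟨q • l, Submodule.smul_mem _ _ hl, ?_⟩
  have := S.U'.smul_mem q h
  have e : q • z - (q • l) x = q • (z - l x) := by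
    rw [LinearMap.smul_apply, smul_sub]
  rwa [e]

theorem NQ.neg {x z : V} (h1 : S.NQ x z) : S.NQ x (-z) := by
  have := h1.smul (-1); simpa using this

theorem NQ.sub {x z w : V} (h1 : S.NQ x z) (h2 : S.NQ x w) : S.NQ x (z - w) := by
  rw [sub_eq_add_neg]; exact h1.add h2.neg

theorem NQ.zsmul {x z : V} (h : S.NQ x z) (n : ℤ) : S.NQ x (n • z) := by
  have := h.smul (n : ℚ)
  rwa [Int.cast_smul_eq_zsmul] at this

theorem NQ.trans {x z w y : V} (h : S.NQ x (z - w)) (h' : S.NQ x (w - y)) : S.NQ x (z - y) := by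
  have := h.add h'; rwa [sub_add_sub_cancel] at this

/-- elements of the rational span have an integer multiple in `L` -/
theorem exists_nsmul_mem_of_span {W : Type*} [AddCommGroup W] [Module ℚ W] (L : AddSubgroup W)
    {l : W} (hl : l ∈ Submodule.span ℚ (L : Set W)) : ∃ m : ℕ, 0 < m ∧ m • l ∈ L := by
  induction hl using Submodule.span_induction with
  | mem x hx => exact ⟨1, one_pos, by simpa using hx⟩
  | zero => exact ⟨1, one_pos, by simp⟩
  | add x y _ _ hx hy =>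
    obtain ⟨m, hm, h⟩ := hx
    obtain ⟨m', hm', h'⟩ := hy
    refine ⟨m * m', Nat.mul_pos hm hm', ?_⟩
    rw [smul_add]
    refine L.add_mem ?_ ?_
    · rw [mul_comm, mul_smul]; exact L.nsmul_mem h _
    · rw [mul_smul]; exact L.nsmul_mem h' _
  | smul a x _ hx =>
    obtain ⟨m, hm, h⟩ := hx
    refine ⟨m * a.den, Nat.mul_pos hm a.pos, ?_⟩
    have e : (m * a.den) • (a • x) = a.num • (m • x) := by
      have h1 : ((m * a.den : ℕ) : ℚ) * a = (a.num : ℚ) * (m : ℚ) := by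
        push_cast
        rw [mul_assoc, Rat.den_mul_eq_num]; ring
      rw [← Nat.cast_smul_eq_nsmul ℚ (m * a.den) (a • x), smul_smul, h1, ← smul_smul,
        Int.cast_smul_eq_zsmul, Nat.cast_smul_eq_nsmul]
    rw [e]
    exact L.zsmul_mem h _

theorem NQ.exists_nsmul {x z : V} (h : S.NQ x z) : ∃ m : ℕ, 0 < m ∧ S.NB x (m • z) := by
  obtain ⟨l, hl, h⟩ := h
  obtain ⟨m, hm, h'⟩ := exists_nsmul_mem_of_span S.L hl
  refine ⟨m, hm, m • l, h', ?_⟩
  have := S.U'.smul_of_tower_mem m h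
  have e : m • z - (m • l) x = m • (z - l x) := by
    rw [LinearMap.smul_apply, smul_sub]
  rwa [e]

theorem NQ.of_nsmul {x z : V} {m : ℕ} (hm : 0 < m) (h : S.NB x (m • z)) : S.NQ x z := by
  have := h.NQ.smul ((m : ℚ)⁻¹)
  rwa [← Nat.cast_smul_eq_nsmul ℚ m z, smul_smul, inv_mul_cancel₀ (by positivity), one_smul] at this

theorem span_Linv (g : G) {l : V →ₗ[ℚ] V}
    (hl : l ∈ Submodule.span ℚ (S.L : Set (V →ₗ[ℚ] V))) :
    (S.ρ g) ∘ₗ l ∘ₗ (S.ρ g⁻¹) ∈ Submodule.span ℚ (S.L : Set (V →ₗ[ℚ] V)) := by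
  induction hl using Submodule.span_induction with
  | mem x hx => exact Submodule.subset_span (S.Linv g x hx)
  | zero => simp
  | add x y _ _ hx hy =>
    rw [LinearMap.add_comp, LinearMap.comp_add]
    exact Submodule.add_mem _ hx hy
  | smul a x _ hx =>
    rw [LinearMap.smul_comp, LinearMap.comp_smul]
    exact Submodule.smul_mem _ _ hx

theorem span_LU {l : V →ₗ[ℚ] V}
    (hl : l ∈ Submodule.span ℚ (S.L : Set (V →ₗ[ℚ] V))) {v : V} (hv : v ∈ S.U) :
    l v ∈ S.U' := by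
  induction hl using Submodule.span_induction with
  | mem x hx => exact S.LU x hx v hv
  | zero => simp
  | add x y _ _ hx hy => exact S.U'.add_mem hx hy
  | smul a x _ hx => exact S.U'.smul_mem _ hx

/-- `C x` preserves `L x + U'` -/
theorem NB.act {x z : V} (h : S.NB x z) {a : G} (ha : a ∈ S.C x) : S.NB x (S.ρ a z) := by
  obtain ⟨l, hl, h⟩ := h
  refine ⟨_, S.Linv a l hl, ?_⟩
  have h1 := S.invU' a _ h
  have h2 := S.LU _ (S.Linv a l hl) _ ha
  have e : S.ρ a z - (S.ρ a ∘ₗ l ∘ₗ S.ρ a⁻¹) x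
      = S.ρ a (z - l x) + (S.ρ a ∘ₗ l ∘ₗ S.ρ a⁻¹) (S.d x a) := by
    simp only [d, map_sub, LinearMap.comp_apply, ρ_inv_apply]; abel
  rw [e]
  exact S.U'.add_mem h1 h2

theorem NQ.act {x z : V} (h : S.NQ x z) {a : G} (ha : a ∈ S.C x) : S.NQ x (S.ρ a z) := by
  obtain ⟨l, hl, h⟩ := h
  refine ⟨_, span_Linv a hl, ?_⟩
  have h1 := S.invU' a _ h
  have h2 := span_LU (span_Linv a hl) ha
  have e : S.ρ a z - (S.ρ a ∘ₗ l ∘ₗ S.ρ a⁻¹) x
      = S.ρ a (z - l x) + (S.ρ a ∘ₗ l ∘ₗ S.ρ a⁻¹) (S.d x a) := by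
    simp only [d, map_sub, LinearMap.comp_apply, ρ_inv_apply]; abel
  rw [e]
  exact S.U'.add_mem h1 h2

theorem NB_of_mem_N {x : V} {ν : G} (hν : ν ∈ S.N) (hx : ν ∈ S.C x) : S.NB x (S.d x ν) := by
  obtain ⟨l, hl, h⟩ := S.exp1 ν hν
  exact ⟨l, hl, (h x).2 ((h x).1 hx)⟩

theorem exists_N {x z : V} (h : S.NB x z) (hz : z ∈ S.U) :
    ∃ ν ∈ S.N, ν ∈ S.C x ∧ S.d x ν - z ∈ S.U' := by
  obtain ⟨l, hl, h⟩ := h
  obtain ⟨ν, hν, h'⟩ := S.exp2 l hl
  have hlx : l x ∈ S.U := by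
    have := S.U.sub_mem hz (S.U'_le h)
    simpa using this
  have h1 := h' x hlx
  refine ⟨ν, hν, ?_, ?_⟩
  · have : S.d x ν = (S.ρ ν x - x - l x) + l x := by simp [d]
    rw [mem_C, this]
    exact S.U.add_mem (S.U'_le h1) hlx
  · have : S.d x ν - z = (S.ρ ν x - x - l x) - (z - l x) := by simp [d]
    rw [this]
    exact S.U'.sub_mem h1 h

theorem triv_d {x : V} {a b : G} (ha : S.Triv a) (hb : b ∈ S.C x) :
    S.d x (a * b) - (S.d x a + S.d x b) ∈ S.U' := by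
  have := ha _ hb
  rw [d_mul]
  have e : S.ρ a (S.d x b) + S.d x a - (S.d x a + S.d x b) = S.ρ a (S.d x b) - S.d x b := by abel
  rwa [e]

theorem NB_mul_N_left {x : V} {ν g : G} (hν : ν ∈ S.N) (hνx : ν ∈ S.C x) (hg : g ∈ S.C x) :
    S.NB x (S.d x (ν * g) - S.d x g) := by
  have h1 : S.NB x (S.d x (ν * g) - (S.d x ν + S.d x g)) :=
    NB.of_mem (triv_d (S.triv_of_mem_N hν) hg)
  have h2 := NB_of_mem_N hν hνx
  have := h1.add h2
  have e : S.d x (ν * g) - (S.d x ν + S.d x g) + S.d x ν = S.d x (ν * g) - S.d x g := by abel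
  rwa [e] at this

/-- the cocycle modulo `NB` only depends on the class modulo `N` -/
theorem NB_of_inv_mul_mem {x : V} {g g' : G} (hg : g ∈ S.C x) (hg' : g' ∈ S.C x)
    (h : g⁻¹ * g' ∈ S.N) : S.NB x (S.d x g' - S.d x g) := by
  have h1 : g' * g⁻¹ ∈ S.N := by
    have := S.N_normal.conj_mem _ h g
    simpa [mul_assoc] using this
  have h2 : g' * g⁻¹ ∈ S.C x := (S.C x).mul_mem hg' ((S.C x).inv_mem hg)
  have := NB_mul_N_left h1 h2 hg
  simpa using this

theorem NB_comm {x : V} {a b : G} (ha : a ∈ S.C x) (hb : b ∈ S.C x) :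
    S.NB x (S.d x (a * b) - S.d x (b * a)) := by
  apply NB_of_inv_mul_mem ((S.C x).mul_mem hb ha) ((S.C x).mul_mem ha hb)
  have := S.comm a⁻¹ b⁻¹
  simpa [mul_assoc] using this

/-- `(a - 1) d b ≡ (b - 1) d a` -/
theorem NB_cocycle_comm {x : V} {a b : G} (ha : a ∈ S.C x) (hb : b ∈ S.C x) :
    S.NB x ((S.ρ a (S.d x b) - S.d x b) - (S.ρ b (S.d x a) - S.d x a)) := by
  have := NB_comm ha hb
  rw [d_mul, d_mul] at this
  have e : S.ρ a (S.d x b) + S.d x a - (S.ρ b (S.d x a) + S.d x b)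
      = (S.ρ a (S.d x b) - S.d x b) - (S.ρ b (S.d x a) - S.d x a) := by abel
  rwa [e] at this

/-- an element whose cocycle vanishes modulo `NB` is `N` times an element of `C'` -/
theorem exists_mul_mem_C' {x : V} {g : G} (hg : g ∈ S.C x) (h : S.NB x (S.d x g)) :
    ∃ ν ∈ S.N, ν ∈ S.C x ∧ ν * g ∈ S.C' x := by
  obtain ⟨ν, hν, hνx, h'⟩ := exists_N h.neg (S.U.neg_mem hg)
  refine ⟨ν, hν, hνx, ?_⟩
  have h1 := triv_d (S.triv_of_mem_N hν) hg
  have : S.d x (ν * g) = (S.d x (ν * g) - (S.d x ν + S.d x g)) + (S.d x ν - -S.d x g) := by abel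
  rw [mem_C', this]
  exact S.U'.add_mem h1 h'

theorem C'_NB {x : V} {g : G} (hg : g ∈ S.C' x) : S.NB x (S.d x g) := NB.of_mem hg

/-- the subgroup of `C x` where the cocycle vanishes modulo `NB` -/
def Cp (S : Stage G V) (x : V) : Subgroup G where
  carrier := {g | g ∈ S.C x ∧ S.NB x (S.d x g)}
  one_mem' := ⟨(S.C x).one_mem, by rw [d_one]; exact NB.zero⟩
  mul_mem' := by
    rintro a b ⟨ha, ha'⟩ ⟨hb, hb'⟩
    refine ⟨(S.C x).mul_mem ha hb, ?_⟩
    rw [d_mul]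
    exact (hb'.act ha).add ha'
  inv_mem' := by
    rintro a ⟨ha, ha'⟩
    refine ⟨(S.C x).inv_mem ha, ?_⟩
    rw [d_inv]
    exact (ha'.act ((S.C x).inv_mem ha)).neg

theorem C'_le_Cp (x : V) : S.C' x ≤ S.Cp x := fun _ h => ⟨S.C'_le x h, C'_NB h⟩

theorem mem_cl_of_mem {Λ : List G} {g : G} (h : g ∈ Λ) : g ∈ S.cl Λ :=
  Subgroup.mem_sup_left (Subgroup.subset_closure h)

theorem N_le_cl (Λ : List G) : S.N ≤ S.cl Λ := le_sup_right

theorem cl_le {Λ : List G} {H : Subgroup G} (h : ∀ g ∈ Λ, g ∈ H) (hN : S.N ≤ H) : S.cl Λ ≤ H :=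
  sup_le ((Subgroup.closure_le _).2 h) hN

theorem Cp_le_cl_of {x : V} {Λ : List G} (h : S.C' x ≤ S.cl Λ) : S.Cp x ≤ S.cl Λ := by
  rintro g ⟨hg, hg'⟩
  obtain ⟨ν, hν, _, h1⟩ := exists_mul_mem_C' hg hg'
  have h2 := h h1
  have := (S.cl Λ).mul_mem ((S.cl Λ).inv_mem (N_le_cl Λ hν)) h2
  simpa using this

theorem κ_one : S.κ 1 = 0 := by
  have := S.κ_mul 1 1
  simpa using this

theorem κ_of_triv {g : G} (h : S.Triv g) : S.κ g = 0 := by
  rw [S.κ_zero]; exact ⟨1, one_pos, by rw [pow_one]; exact h⟩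

theorem κ_inv (g : G) : S.κ g⁻¹ = - S.κ g := by
  have := S.κ_mul g⁻¹ g
  rw [inv_mul_cancel, κ_one] at this
  exact (neg_eq_of_add_eq_zero_left this.symm).symm

end Stage

end Pool.Agent.CP
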