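import Pool.Agent.Helper54.CP.OR2
import Pool.Agent.Helper59.CP.OR1
import Pool.Agent.Helper72.CP.OR6
import Pool.Agent.Helper75.CP.OR5

set_option autoImplicit false

namespace Pool.Agent.CP

open Stage Pool.Agent.CQ

section

variable {α β σ : Type*} [Primcodable α] [Primcodable β] [Primcodable σ]

theorem c_map {f : α → List β} {g : α → β → σ} (hf : Computable f) (hg : Computable₂ g) :
    Computable (fun a => (f a).map (g a)) := by
  have h := or2_foldl (g := fun _ : α => ([] : List σ)) (h := fun a p => p.1 ++ [g a p.2]) hf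
    (Computable.const _) (by
      refine Computable.list_concat.comp (Computable.fst.comp Computable.snd) ?_
      exact hg.comp Computable.fst (Computable.snd.comp Computable.snd))
  refine h.of_eq (fun a => ?_)
  have key : ∀ (l : List β) (s : List σ),
      l.foldl (fun s b => s ++ [g a b]) s = s ++ l.map (g a) := by
    intro l
    induction l with
    | nil => intro s; simp
    | cons b l ih => intro s; simp [ih]
  simpa using key (f a) []

theorem re_exists_list {R : α → β → Prop} (hR : REPred (fun p : α × β => R p.1 p.2))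
    {l : α → List β} (hl : Computable l) : REPred (fun a => ∃ b ∈ l a, R a b) := by
  classical
  have h1 : REPred (fun p : (α × β) × ℕ => (l p.1.1)[p.2]? = some p.1.2 ∧ R p.1.1 p.1.2) := by
    refine re_and ?_ ?_
    · exact re_eq (Computable.list_getElem?.comp (hl.comp (Computable.fst.comp Computable.fst))
        Computable.snd) (Computable.option_some.comp (Computable.snd.comp Computable.fst))
    · exact re_comp hR Computable.fst
  have h2 := re_exists (R := fun (p : α × β) (i : ℕ) => (l p.1)[i]? = some p.2 ∧ R p.1 p.2) h1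
  have h3 := re_exists (R := fun (a : α) (b : β) => ∃ i : ℕ, (l a)[i]? = some b ∧ R a b) h2
  refine h3.of_eq (fun a => ?_)
  constructor
  · rintro ⟨b, i, h, hR⟩
    exact ⟨b, List.mem_of_getElem? h, hR⟩
  · rintro ⟨b, hb, hR⟩
    obtain ⟨i, hi⟩ := List.mem_iff_getElem?.1 hb
    exact ⟨b, i, hi, hR⟩

theorem prp_cp {p : α → Prop} (h : PrimrecPred p) : ComputablePred p := by
  obtain ⟨i, h⟩ := h
  exact ⟨i, h.to_comp⟩

theorem re_not_dvd {m : α → ℕ} {i : α → ℤ} (hm : Computable m) (hi : Computable i) :
    REPred (fun a => ¬ ((m a : ℤ) ∣ i a)) := by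
  have h1 : PrimrecPred (fun p : ℕ × ℤ => p.1 ∣ p.2.natAbs) :=
    pr_dvd.comp Primrec.fst (pr_natAbs Primrec.snd)
  have h2 : ComputablePred (fun p : ℕ × ℤ => p.1 ∣ p.2.natAbs) := prp_cp h1
  refine (re_comp h2.not.to_re (hm.pair hi)).of_eq (fun a => ?_)
  rw [Int.natCast_dvd]

theorem re_not_dvd_list {m : α → ℕ} {e : α → List ℤ} (hm : Computable m) (he : Computable e) :
    REPred (fun a => ∃ i ∈ e a, ¬ ((m a : ℤ) ∣ i)) :=
  re_exists_list (R := fun a i => ¬ ((m a : ℤ) ∣ i))
    (re_not_dvd (hm.comp Computable.fst) Computable.snd) he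

theorem re_pos {m : α → ℕ} (hm : Computable m) : REPred (fun a => 0 < m a) := by
  have h1 : PrimrecPred (fun m : ℕ => 0 < m) := Primrec.nat_lt.comp (Primrec.const 0) Primrec.id
  have h2 : ComputablePred (fun m : ℕ => 0 < m) := prp_cp h1
  exact re_comp h2.to_re hm

theorem c_vneg {m : ℕ} {f : α → Fin m → ℚ} (hf : Computable f) : Computable (fun a => - f a) := by
  refine c_pi (fun i => ?_)
  exact c_qneg (c_app hf i)

theorem c_nsmul {m : ℕ} {c : α → ℕ} {f : α → Fin m → ℚ} (hc : Computable c) (hf : Computable f) :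
    Computable (fun a => c a • f a) := by
  refine (c_vsmul (c_natCast hc) hf).of_eq (fun a => ?_)
  rw [Nat.cast_smul_eq_nsmul]

theorem c_append {f g : α → List β} (hf : Computable f) (hg : Computable g) :
    Computable (fun a => f a ++ g a) := Computable.list_append.comp hf hg

end

end Pool.Agent.CP
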