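/-
MP_82cbb9_al, Theorem A (orbit problem for f.g. virtually unipotent-by-abelian linear groups).
One level of the flag: `Stage`.
-/
import Mathlib

set_option autoImplicit false

namespace Pool.Agent.CP

open Module

/-- The data of one level of the flag.  `G` (a free group in the application) acts on `V` through `ρ`;
`N` is a normal subgroup with `G/N` abelian whose elements act as `exp l`, `l ∈ L`; `U' ≤ U` are two
consecutive members of the flag. -/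
structure Stage (G V : Type*) [Group G] [AddCommGroup V] [Module ℚ V] where
  ρ : G →* (V →ₗ[ℚ] V)
  N : Subgroup G
  L : AddSubgroup (V →ₗ[ℚ] V)
  U : Submodule ℚ V
  U' : Submodule ℚ V
  U'_le : U' ≤ U
  invU : ∀ g : G, ∀ v ∈ U, ρ g v ∈ U
  invU' : ∀ g : G, ∀ v ∈ U', ρ g v ∈ U'
  comm : ∀ a b : G, a * b * a⁻¹ * b⁻¹ ∈ N
  Linv : ∀ g : G, ∀ l ∈ L, (ρ g) ∘ₗ l ∘ₗ (ρ g⁻¹) ∈ L
  LU : ∀ l ∈ L, ∀ v ∈ U, l v ∈ U'
  exp1 : ∀ ν ∈ N, ∃ l ∈ L, ∀ x : V, (ρ ν x - x ∈ U → l x ∈ U) ∧ (l x ∈ U → ρ ν x - x - l x ∈ U')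
  exp2 : ∀ l ∈ L, ∃ ν ∈ N, ∀ x : V, l x ∈ U → ρ ν x - x - l x ∈ U'
  schur : ∀ X ∈ Submodule.span ℚ (Set.range ρ),
    (∀ v ∈ U, X v ∈ U') ∨ (∀ v ∈ U, X v ∈ U' → v ∈ U')
  /-- a homomorphism to a rational vector space killing exactly the elements of finite order on `U/U'` -/
  q : ℕ
  κ : G → (Fin q → ℚ)
  κ_mul : ∀ a b : G, κ (a * b) = κ a + κ b
  κ_zero : ∀ a : G, κ a = 0 ↔ ∃ m : ℕ, 0 < m ∧ ∀ v ∈ U, ρ (a ^ m) v - v ∈ U'

namespace Stage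

variable {G V : Type*} [Group G] [AddCommGroup V] [Module ℚ V] (S : Stage G V)

/-- the cocycle `g ↦ g x - x` -/
def d (x : V) (g : G) : V := S.ρ g x - x

/-- stabiliser of `x` modulo `U` -/
def C (x : V) : Subgroup G where
  carrier := {g | S.d x g ∈ S.U}
  one_mem' := by simp [d]
  mul_mem' := by
    intro a b ha hb
    simp only [Set.mem_ofPred_eq, d] at ha hb ⊢
    have h : S.ρ (a * b) x - x = S.ρ a (S.ρ b x - x) + (S.ρ a x - x) := by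
      rw [map_mul]; simp [map_sub]
    rw [h]
    exact S.U.add_mem (S.invU a _ hb) ha
  inv_mem' := by
    intro a ha
    simp only [Set.mem_ofPred_eq, d] at ha ⊢
    have h : S.ρ a⁻¹ x - x = - S.ρ a⁻¹ (S.ρ a x - x) := by
      have : S.ρ a⁻¹ (S.ρ a x) = x := by
        rw [← Module.End.mul_apply, ← map_mul]; simp
      rw [map_sub, this]; abel
    rw [h]
    exact S.U.neg_mem (S.invU _ _ ha)

/-- stabiliser of `x` modulo `U'` -/
def C' (x : V) : Subgroup G where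
  carrier := {g | S.d x g ∈ S.U'}
  one_mem' := by simp [d]
  mul_mem' := by
    intro a b ha hb
    simp only [Set.mem_ofPred_eq, d] at ha hb ⊢
    have h : S.ρ (a * b) x - x = S.ρ a (S.ρ b x - x) + (S.ρ a x - x) := by
      rw [map_mul]; simp [map_sub]
    rw [h]
    exact S.U'.add_mem (S.invU' a _ hb) ha
  inv_mem' := by
    intro a ha
    simp only [Set.mem_ofPred_eq, d] at ha ⊢
    have h : S.ρ a⁻¹ x - x = - S.ρ a⁻¹ (S.ρ a x - x) := by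
      have : S.ρ a⁻¹ (S.ρ a x) = x := by
        rw [← Module.End.mul_apply, ← map_mul]; simp
      rw [map_sub, this]; abel
    rw [h]
    exact S.U'.neg_mem (S.invU' _ _ ha)

/-- `z ∈ L x + U'` -/
def NB (x z : V) : Prop := ∃ l ∈ S.L, z - l x ∈ S.U'

/-- `z ∈ ℚL x + U'` -/
def NQ (x z : V) : Prop := ∃ l ∈ Submodule.span ℚ (S.L : Set (V →ₗ[ℚ] V)), z - l x ∈ S.U'

/-- `g` acts trivially on `U/U'` -/
def Triv (g : G) : Prop := ∀ v ∈ S.U, S.ρ g v - v ∈ S.U'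

/-- subgroup generated by a list, modulo `N` -/
def cl (Λ : List G) : Subgroup G := Subgroup.closure {g | g ∈ Λ} ⊔ S.N

/-- `Λ` is a list of elements of `C x` generating it modulo `N` -/
def Gen (x : V) (Λ : List G) : Prop := (∀ g ∈ Λ, g ∈ S.C x) ∧ S.C x ≤ S.cl Λ

/-- same for `C' x` -/
def Gen' (x : V) (Λ : List G) : Prop := (∀ g ∈ Λ, g ∈ S.C' x) ∧ S.C' x ≤ S.cl Λ

/-- `b₁^{e₁} b₂^{e₂} ⋯` -/
def pw : List G → List ℤ → G
  | [], _ => 1
  | _, [] => 1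
  | b :: bs, e :: es => b ^ e * pw bs es

/-- `e₁ v₁ + e₂ v₂ + ⋯` -/
def lc {W : Type*} [AddCommGroup W] : List W → List ℤ → W
  | [], _ => 0
  | _, [] => 0
  | v :: vs, e :: es => e • v + lc vs es

/-- integral independence modulo a predicate -/
def Ind {W : Type*} [AddCommGroup W] (P : W → Prop) (vs : List W) : Prop :=
  ∀ e : List ℤ, e.length = vs.length → P (lc vs e) → ∀ i ∈ e, i = 0

/-- the three kinds of configurations -/
inductive Kind (S : Stage G V) (x : V) (b h : List G) : Prop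
  | Z (hb : b = []) : Kind S x b h
  | T (htriv : ∀ g ∈ S.C x, S.Triv g) (hh : ∀ g ∈ h, S.NQ x (S.d x g))
      (hb : Ind (S.NQ x) (b.map (S.d x))) : Kind S x b h
  | K (g₀ : G) (hg₀ : g₀ ∈ S.C x) (hn : ¬ S.Triv g₀) (hd : ¬ S.NQ x (S.d x g₀))
      (hh : ∀ g ∈ h, S.κ g = 0) (hb : Ind (fun v => v = 0) (b.map S.κ)) : Kind S x b h

/-- a configuration describing `C x` and its cocycle `g ↦ d x g mod NB` -/
structure Conf (x : V) (b h c : List G) : Prop where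
  b_mem : ∀ g ∈ b, g ∈ S.C x
  h_mem : ∀ g ∈ h, g ∈ S.C x
  c_mem : ∀ g ∈ c, g ∈ S.C x
  c_cl : ∀ g ∈ c, g ∈ S.cl h
  one_mem : (1 : G) ∈ c
  gens : S.C x ≤ S.cl (b ++ h)
  orb : ∀ g ∈ c, ∀ a ∈ h, ∃ g' ∈ c, S.NB x (S.d x (a * g) - S.d x g')
  orb' : ∀ g ∈ c, ∀ a ∈ h, ∃ g' ∈ c, S.NB x (S.d x (a⁻¹ * g) - S.d x g')
  kind : Kind S x b h

/-- some element of `C x` moves `x` to `x + z` modulo `U'` -/
def T (x z : V) : Prop := ∃ g ∈ S.C x, S.d x g - z ∈ S.U'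

/-- `q₁ v₁ + q₂ v₂ + ⋯` with rational coefficients -/
def lq {W : Type*} [AddCommGroup W] [Module ℚ W] : List W → List ℚ → W
  | [], _ => 0
  | _, [] => 0
  | v :: vs, e :: es => e • v + lq vs es

/-- the operator `∑ qᵢ ρ(gᵢ)` -/
def op (l : List (ℚ × G)) : V →ₗ[ℚ] V := (l.map fun p => p.1 • S.ρ p.2).sum

/-- certificate for `¬ T x z` when the configuration has `b = []` -/
def NTZ (x z : V) (b c : List G) : Prop := b = [] ∧ ∀ g ∈ c, ¬ S.NB x (S.d x g - z)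

/-- certificates for `¬ T x z`, kind `T` -/
def NTT (x z : V) (b c : List G) : Prop :=
  (¬ ∃ q : List ℚ, q.length = b.length ∧ S.NQ x (z - lq (b.map (S.d x)) q)) ∨
  (∃ m : ℕ, 0 < m ∧ ∃ e : List ℤ, e.length = b.length ∧
    S.NQ x (m • z - lc (b.map (S.d x)) e) ∧ ∃ i ∈ e, ¬ (m : ℤ) ∣ i) ∨
  (∃ e : List ℤ, e.length = b.length ∧ S.NQ x (z - lc (b.map (S.d x)) e) ∧
    ∀ g ∈ c, ¬ S.NB x (S.d x (pw b e * g) - z))

/-- the operator `X` solves the equation of kind `K` -/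
def Sol (x z : V) (g₀ : G) (l : List (ℚ × G)) : Prop :=
  (∀ p ∈ l, p.2 ∈ S.C x) ∧ S.NQ x (S.op l (S.d x g₀) - (S.d x g₀ + (S.ρ g₀ z - z)))

/-- certificates for `¬ T x z`, kind `K` -/
def NTK (x z : V) (b c : List G) (g₀ : G) : Prop :=
  (¬ ∃ l : List (ℚ × G), S.Sol x z g₀ l) ∨
  (∃ l : List (ℚ × G), S.Sol x z g₀ l ∧ ¬ ∃ g : G, ∀ v ∈ S.U, S.op l v - S.ρ g v ∈ S.U') ∨
  (∃ l : List (ℚ × G), S.Sol x z g₀ l ∧ ∃ g : G, (∀ v ∈ S.U, S.op l v - S.ρ g v ∈ S.U') ∧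
    ((¬ ∃ q : List ℚ, q.length = b.length ∧ S.κ g = lq (b.map S.κ) q) ∨
     (∃ m : ℕ, 0 < m ∧ ∃ e : List ℤ, e.length = b.length ∧
        m • S.κ g = lc (b.map S.κ) e ∧ ∃ i ∈ e, ¬ (m : ℤ) ∣ i) ∨
     (∃ e : List ℤ, e.length = b.length ∧ S.κ g = lc (b.map S.κ) e ∧
        ∀ g' ∈ c, ¬ S.NB x (S.d x (pw b e * g') - z))))

end Stage

end Pool.Agent.CP
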