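import Pool.Agent.Helper98.CP.Basic
import Pool.Agent.Helper39.CJ.RE

set_option autoImplicit false

namespace Pool.Agent.CP

/-- words in `k` letters and their inverses -/
abbrev Wd (k : ℕ) := List (Fin k × Bool)

/-- the element of the free group defined by a word -/
abbrev gw {k : ℕ} (w : Wd k) : FreeGroup (Fin k) := FreeGroup.mk w

/-- inverse word -/
def winv {k : ℕ} (w : Wd k) : Wd k := FreeGroup.invRev w

theorem gw_winv {k : ℕ} (w : Wd k) : gw (winv w) = (gw w)⁻¹ := by
  rw [gw, winv, ← FreeGroup.inv_mk]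

theorem gw_append {k : ℕ} (w w' : Wd k) : gw (w ++ w') = gw w * gw w' := by
  rw [gw, gw, gw, FreeGroup.mul_mk]

theorem gw_surj {k : ℕ} (g : FreeGroup (Fin k)) : ∃ w : Wd k, gw w = g :=
  ⟨g.toWord, FreeGroup.mk_toWord⟩

/-- word version of `g ^ e` -/
def wpow {k : ℕ} (w : Wd k) (e : ℤ) : Wd k :=
  if 0 ≤ e then (List.replicate e.toNat w).flatten else (List.replicate (-e).toNat (winv w)).flatten

/-- word version of `pw` -/
def wpw {k : ℕ} : List (Wd k) → List ℤ → Wd k
  | [], _ => []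
  | _, [] => []
  | b :: bs, e :: es => wpow b e ++ wpw bs es

namespace Stage

variable {k n : ℕ} (S : Stage (FreeGroup (Fin k)) (Fin n → ℚ))

/-- computability hypotheses on a stage -/
structure Eff : Prop where
  N_re : REPred (fun w : Wd k => gw w ∈ S.N)
  L_re : REPred (fun A : Matrix (Fin n) (Fin n) ℚ => Matrix.toLin' A ∈ S.L)
  den : ∃ s : ℕ, 0 < s ∧ ∀ l ∈ S.L, ∃ j : ℕ, ∀ a b, ∃ z : ℤ,
    (s : ℚ) ^ j * LinearMap.toMatrix' l a b = z

/-- lists of pairs (coefficient, word), as lists of pairs (coefficient, group element) -/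
def lgw (l : List (ℚ × Wd k)) : List (ℚ × FreeGroup (Fin k)) := l.map fun p => (p.1, gw p.2)

end Stage

end Pool.Agent.CP
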